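import Mathlib

/-!
# Cosets of algebraic subgroups of the torus, systems of Laurent polynomials: definitions
-/

set_option autoImplicit false

namespace Pool.Agent.R870.RZ

open MvPolynomial

/-- The coset `{y | y ^ a = η ^ a for all a in M}` of an algebraic subgroup of the torus
`(ℂ^×)^n`; it has the dimension `n - rank M`. Every torsion coset, that is, every special
subvariety of the torus, is of this form, with `η` of finite order. -/
def coset {n : ℕ} (M : Submodule ℤ (Fin n → ℤ)) (η : Fin n → ℂ) : Set (Fin n → ℂ) :=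
  {y | (∀ l, y l ≠ 0) ∧ ∀ a ∈ M, ∏ l, y l ^ a l = ∏ l, η l ^ a l}

/-- `M` has complexity at most `Δ`: there are `rank M` linearly independent vectors in `M`
whose entries have absolute value at most `Δ`. (This is the case if `M` is generated by vectors of
this size.) -/
def Complexity {n : ℕ} (Δ : ℕ) (M : Submodule ℤ (Fin n → ℤ)) : Prop :=
  ∃ v : Fin (Module.finrank ℤ M) → Fin n → ℤ, LinearIndependent ℤ v ∧ (∀ i, v i ∈ M) ∧
    ∀ i l, |v i l| ≤ Δ

/-- The ideal of the polynomials vanishing on `W`; `W` is irreducible when it is prime. -/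
noncomputable def idealOf {n : ℕ} (W : Set (Fin n → ℂ)) : Ideal (MvPolynomial (Fin n) ℂ) :=
  ⨅ x ∈ W, RingHom.ker (eval x : MvPolynomial (Fin n) ℂ →+* ℂ)

/-- The dimension of an irreducible set `W`: the transcendence degree of its coordinate ring. -/
noncomputable def dim {n : ℕ} (W : Set (Fin n → ℂ)) : Cardinal :=
  Algebra.trdeg ℂ (MvPolynomial (Fin n) ℂ ⧸ idealOf W)

/-- The index set of the coefficients of `k` Laurent polynomials with the supports `A_j`; it has
`∑ |A_j|` elements. -/
abbrev Coeff {n k : ℕ} (A : Fin k → Finset (Fin n → ℤ)) : Type := (j : Fin k) × {α // α ∈ A j}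

/-- The subvariety `V_c` of the torus `(ℂ^×)^n` which is defined by the Laurent polynomials
`∑_{α ∈ A_j} c_jα x ^ α`, `j < k`, with the integral coefficients `c`. -/
def system {n k : ℕ} (A : Fin k → Finset (Fin n → ℤ)) (c : Coeff A → ℤ) :
    Set (Fin n → ℂ) :=
  {x | (∀ l, x l ≠ 0) ∧
    ∀ j, ∑ α : {α // α ∈ A j}, (c ⟨j, α⟩ : ℂ) * ∏ l, x l ^ (α : Fin n → ℤ) l = 0}

theorem mem_idealOf {n : ℕ} {W : Set (Fin n → ℂ)} {f : MvPolynomial (Fin n) ℂ} :
    f ∈ idealOf W ↔ ∀ x ∈ W, eval x f = 0 := by
  simp [idealOf, Submodule.mem_iInf, RingHom.mem_ker]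

end Pool.Agent.R870.RZ
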