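import Pool.Agent.R870.RZ.Count

/-!
# Random systems of Laurent polynomials have only typical intersections with the cosets of
algebraic subgroups of small complexity
-/

set_option autoImplicit false

namespace Pool.Agent.R870.RZ

open MvPolynomial

variable {n k : ℕ}

/-- A transcendence basis consisting of coordinates. -/
theorem exists_J (W : Set (Fin n → ℂ)) (hW : (idealOf W).IsPrime) :
    ∃ J : Finset (Fin n), AlgebraicIndependent ℂ
      (fun j : J => Ideal.Quotient.mk (idealOf W) (X (j : Fin n))) ∧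
      (J.card : Cardinal) = dim W := by
  classical
  let R := MvPolynomial (Fin n) ℂ ⧸ idealOf W
  have : IsDomain R := Ideal.Quotient.isDomain _
  let w : Fin n → R := fun j => Ideal.Quotient.mk (idealOf W) (X j)
  have hadj : Algebra.adjoin ℂ (Set.range w) = ⊤ := by
    rw [Algebra.adjoin_range_eq_range_aeval, eq_top_iff]
    rintro x -
    obtain ⟨p, rfl⟩ := Ideal.Quotient.mk_surjective x
    refine ⟨p, ?_⟩
    have h2 : (aeval w : MvPolynomial (Fin n) ℂ →ₐ[ℂ] R) = Ideal.Quotient.mkₐ ℂ (idealOf W) := by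
      ext i
      rw [aeval_X]
      rfl
    exact DFunLike.congr_fun h2 p
  have halg : Algebra.IsAlgebraic (Algebra.adjoin ℂ (Set.range w)) R := by
    refine ⟨fun x => ?_⟩
    have hx : x ∈ Algebra.adjoin ℂ (Set.range w) := by rw [hadj]; exact Algebra.mem_top
    exact isAlgebraic_algebraMap (⟨x, hx⟩ : Algebra.adjoin ℂ (Set.range w))
  obtain ⟨t, hts, ht⟩ := exists_isTranscendenceBasis_subset (R := ℂ) (Set.range w)
  have hc : ∀ e : t, ∃ j, w j = e := fun e => hts e.2
  choose c hc using hc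
  have hcinj : Function.Injective c := by
    intro e e' hee
    exact Subtype.ext (by rw [← hc e, ← hc e', hee])
  have htfin : Finite t := Finite.of_injective c hcinj
  have : Fintype t := Fintype.ofFinite t
  set J : Finset (Fin n) := Finset.univ.image c with hJ
  have hJt : ∀ j : J, ∃ e : t, c e = j := by
    rintro ⟨j, hj⟩
    obtain ⟨e, -, he⟩ := Finset.mem_image.1 hj
    exact ⟨e, he⟩
  choose φ hφ using hJt
  have hφinj : Function.Injective φ := by
    intro j j' hjj
    exact Subtype.ext (by rw [← hφ j, ← hφ j', hjj])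
  have hzφ : (fun j : J => w j) = (fun e : t => (e : R)) ∘ φ := by
    funext j
    simp only [Function.comp_apply]
    rw [← hc (φ j), hφ j]
  refine ⟨J, ?_, ?_⟩
  · change AlgebraicIndependent ℂ (fun j : J => w j)
    rw [hzφ]
    exact ht.1.comp φ hφinj
  · rw [dim, ← ht.cardinalMk_eq_trdeg, Cardinal.mk_fintype, hJ,
      Finset.card_image_of_injective _ hcinj, Finset.card_univ]

theorem coset_mono {M M' : Submodule ℤ (Fin n → ℤ)} (h : M' ≤ M) (η : Fin n → ℂ) :
    coset M η ⊆ coset M' η := fun _ hy => ⟨hy.1, fun a ha => hy.2 a (h ha)⟩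

theorem main (A : Fin k → Finset (Fin n → ℤ)) (hA : ∀ j, (A j).Nonempty) :
    ∃ C : ℕ, ∀ (H Δ : ℕ), 1 ≤ Δ → ∀ G : Finset (Fin n → ℂ), ∃ E : Finset (Coeff A → ℤ),
      E.card * (2 * H + 1) ≤
        C * G.card * Δ ^ (n * (n + 1)) * (2 * H + 1) ^ Fintype.card (Coeff A) ∧
      ∀ c : Coeff A → ℤ, (∀ x, |c x| ≤ H) → c ∉ E →
        ∀ M : Submodule ℤ (Fin n → ℤ), Complexity Δ M → ∀ η ∈ G, ∀ W : Set (Fin n → ℂ),
          W ⊆ system A c → W ⊆ coset M η → (idealOf W).IsPrime →
            dim W + (k : Cardinal) + (Module.finrank ℤ M : Cardinal) ≤ (n : Cardinal) := by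
  classical
  -- choice of exponents
  have hch : ∀ j, ∃ α : {α // α ∈ A j}, True := fun j =>
    ⟨⟨(hA j).choose, (hA j).choose_spec⟩, trivial⟩
  choose a _ using hch
  let B : ℕ := ∑ j, ∑ α ∈ A j, ∑ l, (α l - (a j : Fin n → ℤ) l).natAbs
  have hB : ∀ j, ∀ α ∈ A j, ∀ l, |α l - (a j : Fin n → ℤ) l| ≤ B := by
    intro j α hα l
    rw [← Int.natCast_natAbs]
    have h1 : (α l - (a j : Fin n → ℤ) l).natAbs ≤ ∑ l, (α l - (a j : Fin n → ℤ) l).natAbs :=
      Finset.single_le_sum (f := fun l => (α l - (a j : Fin n → ℤ) l).natAbs)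
        (fun _ _ => Nat.zero_le _) (Finset.mem_univ l)
    have h2 : ∑ l, (α l - (a j : Fin n → ℤ) l).natAbs ≤
        ∑ α ∈ A j, ∑ l, (α l - (a j : Fin n → ℤ) l).natAbs :=
      Finset.single_le_sum (f := fun α : Fin n → ℤ => ∑ l, (α l - (a j : Fin n → ℤ) l).natAbs)
        (fun _ _ => Nat.zero_le _) hα
    have h3 : ∑ α ∈ A j, ∑ l, (α l - (a j : Fin n → ℤ) l).natAbs ≤ B :=
      Finset.single_le_sum
        (f := fun j => ∑ α ∈ A j, ∑ l, (α l - (a j : Fin n → ℤ) l).natAbs)
        (fun _ _ => Nat.zero_le _) (Finset.mem_univ j)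
    exact_mod_cast h1.trans (h2.trans h3)
  refine ⟨(n + 1) * 3 ^ (n * n) * 2 ^ n * k * ((2 * n + 3) ^ n * (k * B + n + 1) ^ n),
    fun H Δ hΔ G => ?_⟩
  let bx : Finset (Fin n → ℤ) := Fintype.piFinset fun _ => Finset.Icc (-(Δ : ℤ)) Δ
  have hbx : bx.card = (2 * Δ + 1) ^ n := by
    rw [Fintype.card_piFinset, Finset.prod_const, Finset.card_univ, Fintype.card_fin,
      Int.card_Icc]
    congr 1
    omega
  let vs : (r : ℕ) → Finset (Fin r → Fin n → ℤ) := fun r =>
    (Fintype.piFinset fun _ : Fin r => bx).filter fun v => LinearIndependent ℤ v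
  have hvs : ∀ r, (vs r).card ≤ (2 * Δ + 1) ^ (n * r) := by
    intro r
    refine (Finset.card_filter_le _ _).trans ?_
    rw [Fintype.card_piFinset, Finset.prod_const, Finset.card_univ, Fintype.card_fin, hbx,
      ← pow_mul]
  let Js : (r : ℕ) → Finset (Finset (Fin n)) := fun r =>
    Finset.univ.filter fun J => n + 1 ≤ r + k + J.card
  have hJs : ∀ r, (Js r).card ≤ 2 ^ n := by
    intro r
    refine (Finset.card_filter_le _ _).trans ?_
    simp
  let E : Finset (Coeff A → ℤ) := (Finset.range (n + 1)).biUnion fun r =>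
    (vs r).biUnion fun v => G.biUnion fun η => (Js r).biUnion fun J =>
      Bad A H (coset (Submodule.span ℤ (Set.range v)) η) J
  refine ⟨E, ?_, ?_⟩
  · -- the count
    have hbad : ∀ r, ∀ v ∈ vs r, ∀ η ∈ G, ∀ J ∈ Js r,
        (Bad A H (coset (Submodule.span ℤ (Set.range v)) η) J).card * (2 * H + 1) ≤
          k * DD n k B Δ * (2 * H + 1) ^ Fintype.card (Coeff A) := by
      intro r v hv η _ J hJ
      obtain ⟨hv1, hv2⟩ := Finset.mem_filter.1 hv
      refine card_Bad A a B hB v hv2 Δ ?_ _ (fun y hy => hy.1) (fun a => ∏ l, η l ^ a l)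
        (fun y hy a ha => hy.2 a ha) J (Finset.mem_filter.1 hJ).2 H
      intro i l
      have h1 := Fintype.mem_piFinset.1 (Fintype.mem_piFinset.1 hv1 i) l
      rw [Finset.mem_Icc] at h1
      exact abs_le.2 h1
    obtain ⟨Q, hQ⟩ : ∃ Q, Q = k * DD n k B Δ * (2 * H + 1) ^ Fintype.card (Coeff A) :=
      ⟨_, rfl⟩
    have hEcard : E.card * (2 * H + 1) ≤ (n + 1) * ((2 * Δ + 1) ^ (n * n) * (G.card *
        (2 ^ n * Q))) := by
      have h1 : E.card ≤ ∑ r ∈ Finset.range (n + 1), ∑ v ∈ vs r, ∑ η ∈ G, ∑ J ∈ Js r,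
          (Bad A H (coset (Submodule.span ℤ (Set.range v)) η) J).card :=
        Finset.card_biUnion_le.trans (Finset.sum_le_sum fun r _ =>
          Finset.card_biUnion_le.trans (Finset.sum_le_sum fun v _ =>
            Finset.card_biUnion_le.trans (Finset.sum_le_sum fun η _ =>
              Finset.card_biUnion_le)))
      calc E.card * (2 * H + 1)
          ≤ (∑ r ∈ Finset.range (n + 1), ∑ v ∈ vs r, ∑ η ∈ G, ∑ J ∈ Js r,
            (Bad A H (coset (Submodule.span ℤ (Set.range v)) η) J).card) * (2 * H + 1) :=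
            Nat.mul_le_mul_right _ h1
        _ = ∑ r ∈ Finset.range (n + 1), ∑ v ∈ vs r, ∑ η ∈ G, ∑ J ∈ Js r,
            (Bad A H (coset (Submodule.span ℤ (Set.range v)) η) J).card * (2 * H + 1) := by
            simp only [Finset.sum_mul]
        _ ≤ ∑ r ∈ Finset.range (n + 1), ∑ v ∈ vs r, ∑ η ∈ G, ∑ J ∈ Js r, Q :=
            Finset.sum_le_sum fun r _ => Finset.sum_le_sum fun v hv =>
              Finset.sum_le_sum fun η hη => Finset.sum_le_sum fun J hJ => by
                rw [hQ]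
                exact hbad r v hv η hη J hJ
        _ = ∑ r ∈ Finset.range (n + 1), (vs r).card * (G.card * ((Js r).card * Q)) := by
            simp only [Finset.sum_const, smul_eq_mul]
        _ ≤ ∑ _r ∈ Finset.range (n + 1), (2 * Δ + 1) ^ (n * n) * (G.card * (2 ^ n * Q)) := by
            refine Finset.sum_le_sum fun r hr => ?_
            have hr' : r ≤ n := Nat.lt_succ_iff.1 (Finset.mem_range.1 hr)
            refine Nat.mul_le_mul ((hvs r).trans ?_) (Nat.mul_le_mul_left _
              (Nat.mul_le_mul_right _ (hJs r)))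
            exact Nat.pow_le_pow_right (by omega) (Nat.mul_le_mul_left _ hr')
        _ = _ := by rw [Finset.sum_const, Finset.card_range, smul_eq_mul]
    refine hEcard.trans ?_
    have h2 : (2 * Δ + 1) ^ (n * n) ≤ 3 ^ (n * n) * Δ ^ (n * n) := by
      rw [← mul_pow]
      exact Nat.pow_le_pow_left (by omega) _
    have h3 : DD n k B Δ ≤ (2 * n + 3) ^ n * (k * B + n + 1) ^ n * Δ ^ n := by
      rw [DD]
      have h4 : (2 * n * Δ + 3) ^ n ≤ (2 * n + 3) ^ n * Δ ^ n := by
        rw [← mul_pow]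
        refine Nat.pow_le_pow_left ?_ _
        nlinarith
      calc (2 * n * Δ + 3) ^ n * (k * B + n + 1) ^ n
          ≤ (2 * n + 3) ^ n * Δ ^ n * (k * B + n + 1) ^ n := Nat.mul_le_mul_right _ h4
        _ = _ := by ring
    rw [hQ]
    calc (n + 1) * ((2 * Δ + 1) ^ (n * n) * (G.card * (2 ^ n * (k * DD n k B Δ *
          (2 * H + 1) ^ Fintype.card (Coeff A)))))
        ≤ (n + 1) * ((3 ^ (n * n) * Δ ^ (n * n)) * (G.card * (2 ^ n *
          (k * ((2 * n + 3) ^ n * (k * B + n + 1) ^ n * Δ ^ n) *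
          (2 * H + 1) ^ Fintype.card (Coeff A))))) := by
          refine Nat.mul_le_mul_left _ (Nat.mul_le_mul h2 (Nat.mul_le_mul_left _
            (Nat.mul_le_mul_left _ (Nat.mul_le_mul_right _ (Nat.mul_le_mul_left _ h3)))))
      _ = _ := by
          rw [show n * (n + 1) = n * n + n by ring, pow_add]
          ring
  · intro c hc hcE M hM η hη W hWV hWT hWp
    obtain ⟨v, hv, hvM, hvΔ⟩ := hM
    obtain ⟨J, hJ, hJd⟩ := exists_J W hWp
    rw [← hJd]
    by_contra hcon
    have hcon' : ¬ (J.card + k + Module.finrank ℤ M ≤ n) := by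
      intro h
      apply hcon
      exact_mod_cast h
    have hr : Module.finrank ℤ M ≤ n := by
      have := Submodule.finrank_le M
      rwa [Module.finrank_fin_fun] at this
    apply hcE
    rw [Finset.mem_biUnion]
    refine ⟨Module.finrank ℤ M, Finset.mem_range.2 (Nat.lt_succ_of_le hr), ?_⟩
    rw [Finset.mem_biUnion]
    refine ⟨v, ?_, ?_⟩
    · rw [Finset.mem_filter, Fintype.mem_piFinset]
      refine ⟨fun i => ?_, hv⟩
      rw [Fintype.mem_piFinset]
      intro l
      rw [Finset.mem_Icc]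
      exact abs_le.1 (hvΔ i l)
    · rw [Finset.mem_biUnion]
      refine ⟨η, hη, ?_⟩
      rw [Finset.mem_biUnion]
      refine ⟨J, ?_, ?_⟩
      · rw [Finset.mem_filter]
        refine ⟨Finset.mem_univ _, by omega⟩
      · rw [Bad, Finset.mem_filter]
        refine ⟨mem_cbox.2 hc, W, hWV, ?_, hWp, hJ⟩
        refine hWT.trans (coset_mono ?_ η)
        rw [Submodule.span_le]
        rintro x ⟨i, rfl⟩
        exact hvM i

end Pool.Agent.R870.RZ
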