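import Mathlib

/-!
# Laurent monomials on cosets of algebraic subgroups of the torus

The number of classes of exponent vectors, and the dimension of the space of functions on a coset
given by Laurent polynomials of bounded degree.
-/

set_option autoImplicit false

namespace Pool.Agent.R870.RZ

open MvPolynomial

variable {n : ℕ}

/-- the Laurent monomial `y ^ e` -/
noncomputable def mon (y : Fin n → ℂ) (e : Fin n → ℤ) : ℂ := ∏ l, y l ^ e l

theorem mon_zero (y : Fin n → ℂ) : mon y 0 = 1 := by simp [mon]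

theorem mon_add {y : Fin n → ℂ} (hy : ∀ l, y l ≠ 0) (e f : Fin n → ℤ) :
    mon y (e + f) = mon y e * mon y f := by
  rw [mon, mon, mon, ← Finset.prod_mul_distrib]
  exact Finset.prod_congr rfl fun l _ => zpow_add₀ (hy l) _ _

theorem mon_ne {y : Fin n → ℂ} (hy : ∀ l, y l ≠ 0) (e : Fin n → ℤ) : mon y e ≠ 0 :=
  Finset.prod_ne_zero_iff.2 fun l _ => zpow_ne_zero _ (hy l)

theorem mon_single (y : Fin n → ℂ) (j : Fin n) : mon y (Pi.single j 1) = y j := by
  rw [mon, Finset.prod_eq_single j]
  · simp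
  · intro l _ hl
    simp [Pi.single_eq_of_ne hl]
  · intro h
    exact absurd (Finset.mem_univ j) h

/-- The number of classes modulo a sublattice of the integer vectors in a box. -/
theorem classes {r : ℕ} (v : Fin r → Fin n → ℤ) (hv : LinearIndependent ℤ v) (Δ L : ℕ)
    (hΔ : ∀ i l, |v i l| ≤ Δ) (hL : 1 ≤ L) (S : Finset (Fin n → ℤ)) (hS : ∀ e ∈ S, ∀ l, |e l| ≤ L)
    (hinj : ∀ e ∈ S, ∀ f ∈ S, e - f ∈ Submodule.span ℤ (Set.range v) → e = f) :
    S.card * L ^ r ≤ ((2 * r * Δ + 3) * L) ^ n := by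
  classical
  let box : Finset (Fin n → ℤ) :=
    Fintype.piFinset fun _ => Finset.Icc (-((1 + r * Δ : ℕ) * L : ℤ)) ((1 + r * Δ : ℕ) * L)
  have hcard : box.card ≤ ((2 * r * Δ + 3) * L) ^ n := by
    rw [Fintype.card_piFinset, Finset.prod_const, Finset.card_univ, Fintype.card_fin, Int.card_Icc]
    refine Nat.pow_le_pow_left ?_ n
    rw [Int.toNat_le]
    push_cast
    have : (1 : ℤ) ≤ L := by exact_mod_cast hL
    nlinarith
  refine le_trans ?_ hcard
  have h1 : S.card * L ^ r = (S ×ˢ (Finset.univ : Finset (Fin r → Fin L))).card := by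
    rw [Finset.card_product, Finset.card_univ, Fintype.card_fun, Fintype.card_fin,
      Fintype.card_fin]
  rw [h1]
  refine Finset.card_le_card_of_injOn
    (fun p => p.1 + ∑ i, ((p.2 i : ℕ) : ℤ) • v i) ?_ ?_
  · rintro ⟨e, a⟩ hp
    have he : e ∈ S := by
      have := Finset.mem_coe.1 hp
      exact (Finset.mem_product.1 this).1
    rw [Finset.mem_coe, Fintype.mem_piFinset]
    intro l
    have h2 : |(e + ∑ i, ((a i : ℕ) : ℤ) • v i) l| ≤ (1 + r * Δ : ℕ) * L := by
      rw [Pi.add_apply, Finset.sum_apply]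
      refine (abs_add_le _ _).trans ?_
      have h3 : |∑ i, (((a i : ℕ) : ℤ) • v i) l| ≤ ∑ _i : Fin r, (L : ℤ) * Δ := by
        refine (Finset.abs_sum_le_sum_abs _ _).trans (Finset.sum_le_sum fun i _ => ?_)
        rw [Pi.smul_apply, smul_eq_mul, abs_mul]
        have h4 : |((a i : ℕ) : ℤ)| ≤ L := by
          rw [abs_of_nonneg (by positivity)]
          exact_mod_cast (a i).2.le
        exact mul_le_mul h4 (hΔ i l) (abs_nonneg _) (by positivity)
      rw [Finset.sum_const, Finset.card_univ, Fintype.card_fin, nsmul_eq_mul] at h3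
      have h5 := hS e he l
      push_cast
      nlinarith
    rw [Finset.mem_Icc]
    exact abs_le.1 h2
  · rintro ⟨e, a⟩ hp ⟨f, b⟩ hq hpq
    have he : e ∈ S := (Finset.mem_product.1 (Finset.mem_coe.1 hp)).1
    have hf : f ∈ S := (Finset.mem_product.1 (Finset.mem_coe.1 hq)).1
    have h2 : e - f = ∑ i, (((b i : ℕ) : ℤ) - ((a i : ℕ) : ℤ)) • v i := by
      have h3 : e + ∑ i, ((a i : ℕ) : ℤ) • v i = f + ∑ i, ((b i : ℕ) : ℤ) • v i := hpq
      have h4 : ∑ i, (((b i : ℕ) : ℤ) - ((a i : ℕ) : ℤ)) • v i =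
          ∑ i, ((b i : ℕ) : ℤ) • v i - ∑ i, ((a i : ℕ) : ℤ) • v i := by
        rw [← Finset.sum_sub_distrib]
        exact Finset.sum_congr rfl fun i _ => sub_smul _ _ _
      rw [h4, sub_eq_sub_iff_add_eq_add, h3]
      abel
    have h5 : e = f := by
      refine hinj e he f hf ?_
      rw [h2]
      exact Submodule.sum_mem _ fun i _ => Submodule.smul_mem _ _
        (Submodule.subset_span ⟨i, rfl⟩)
    subst h5
    have h6 : ∀ i, ((b i : ℕ) : ℤ) - ((a i : ℕ) : ℤ) = 0 := by
      refine Fintype.linearIndependent_iff.1 hv _ ?_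
      rw [← h2, sub_self]
    have h7 : a = b := by
      funext i
      have := h6 i
      apply Fin.ext
      omega
    rw [h7]

/-- functions on `T` given by Laurent polynomials of degree at most `L` -/
noncomputable def P (T : Set (Fin n → ℂ)) (L : ℕ) : Submodule ℂ (T → ℂ) :=
  Submodule.span ℂ {f | ∃ e : Fin n → ℤ, (∀ l, |e l| ≤ L) ∧ f = fun y : T => mon y.1 e}

theorem mon_mem_P {T : Set (Fin n → ℂ)} {L : ℕ} {e : Fin n → ℤ} (he : ∀ l, |e l| ≤ L) :
    (fun y : T => mon y.1 e) ∈ P T L := Submodule.subset_span ⟨e, he, rfl⟩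

theorem one_mem_P (T : Set (Fin n → ℂ)) (L : ℕ) : (1 : T → ℂ) ∈ P T L := by
  have := mon_mem_P (T := T) (L := L) (e := 0) (by simp)
  simp only [mon_zero] at this
  exact this

theorem P_mul {T : Set (Fin n → ℂ)} (hT : ∀ y ∈ T, ∀ l, y l ≠ 0) {L L' : ℕ} {f g : T → ℂ}
    (hf : f ∈ P T L) (hg : g ∈ P T L') : f * g ∈ P T (L + L') := by
  induction hf using Submodule.span_induction with
  | mem f hf =>
    obtain ⟨e, he, rfl⟩ := hf
    induction hg using Submodule.span_induction with
    | mem g hg =>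
      obtain ⟨e', he', rfl⟩ := hg
      have h1 : ((fun y : T => mon y.1 e) * fun y : T => mon y.1 e') =
          fun y : T => mon y.1 (e + e') := by
        funext y
        exact (mon_add (hT y.1 y.2) e e').symm
      rw [h1]
      refine mon_mem_P fun l => ?_
      rw [Pi.add_apply]
      refine (abs_add_le _ _).trans ?_
      push_cast
      exact add_le_add (he l) (he' l)
    | zero => rw [mul_zero]; exact Submodule.zero_mem _
    | add a b _ _ ha hb => rw [mul_add]; exact Submodule.add_mem _ ha hb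
    | smul c a _ ha => rw [mul_smul_comm]; exact Submodule.smul_mem _ _ ha
  | zero => rw [zero_mul]; exact Submodule.zero_mem _
  | add a b _ _ ha hb => rw [add_mul]; exact Submodule.add_mem _ ha hb
  | smul c a _ ha => rw [smul_mul_assoc]; exact Submodule.smul_mem _ _ ha

theorem P_pow {T : Set (Fin n → ℂ)} (hT : ∀ y ∈ T, ∀ l, y l ≠ 0) {L : ℕ} {f : T → ℂ}
    (hf : f ∈ P T L) (m : ℕ) : f ^ m ∈ P T (m * L) := by
  induction m with
  | zero => rw [pow_zero]; exact one_mem_P T _
  | succ m ih =>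
    rw [pow_succ, Nat.succ_mul]
    exact P_mul hT ih hf

theorem P_mono {T : Set (Fin n → ℂ)} {L L' : ℕ} (h : L ≤ L') : P T L ≤ P T L' := by
  refine Submodule.span_mono ?_
  rintro f ⟨e, he, rfl⟩
  exact ⟨e, fun l => (he l).trans (by exact_mod_cast h), rfl⟩

theorem P_prod {T : Set (Fin n → ℂ)} (hT : ∀ y ∈ T, ∀ l, y l ≠ 0) {ι : Type} (s : Finset ι)
    (F : ι → T → ℂ) (L : ι → ℕ) (hF : ∀ i ∈ s, F i ∈ P T (L i)) :
    ∏ i ∈ s, F i ∈ P T (∑ i ∈ s, L i) := by
  classical
  induction s using Finset.induction_on with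
  | empty => rw [Finset.prod_empty]; exact one_mem_P T _
  | insert a s ha ih =>
    rw [Finset.prod_insert ha, Finset.sum_insert ha]
    exact P_mul hT (hF a (Finset.mem_insert_self a s))
      (ih fun i hi => hF i (Finset.mem_insert_of_mem hi))

/-- dimension of the space of functions of degree at most `L` on a coset -/
theorem finrank_P {r : ℕ} (v : Fin r → Fin n → ℤ) (hv : LinearIndependent ℤ v) (Δ L : ℕ)
    (hΔ : ∀ i l, |v i l| ≤ Δ) (hL : 1 ≤ L) (T : Set (Fin n → ℂ)) (hT : ∀ y ∈ T, ∀ l, y l ≠ 0)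
    (κ : (Fin n → ℤ) → ℂ)
    (hκ : ∀ y ∈ T, ∀ a ∈ Submodule.span ℤ (Set.range v), mon y a = κ a) :
    Module.finrank ℂ (P T L) * L ^ r ≤ ((2 * r * Δ + 3) * L) ^ n ∧ Module.Finite ℂ (P T L) := by
  classical
  let box : Finset (Fin n → ℤ) := Fintype.piFinset fun _ => Finset.Icc (-(L : ℤ)) L
  have hbox : ∀ e : Fin n → ℤ, e ∈ box ↔ ∀ l, |e l| ≤ L := by
    intro e
    rw [Fintype.mem_piFinset]
    exact forall_congr' fun l => by rw [Finset.mem_Icc, abs_le]
  let M := Submodule.span ℤ (Set.range v)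
  -- representatives
  let rep : (Fin n → ℤ) → (Fin n → ℤ) := fun e =>
    if h : ∃ f ∈ box, e - f ∈ M then h.choose else e
  have hrep : ∀ e ∈ box, rep e ∈ box ∧ e - rep e ∈ M := by
    intro e he
    have h : ∃ f ∈ box, e - f ∈ M := ⟨e, he, by rw [sub_self]; exact M.zero_mem⟩
    have h1 : rep e = h.choose := dif_pos h
    rw [h1]
    exact h.choose_spec
  have hrep2 : ∀ e ∈ box, ∀ f ∈ box, e - f ∈ M → rep e = rep f := by
    intro e he f hf hef
    have h1 : (fun g => g ∈ box ∧ e - g ∈ M) = fun g => g ∈ box ∧ f - g ∈ M := by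
      funext g
      refine propext (and_congr_right fun _ => ?_)
      constructor
      · intro h
        have := M.sub_mem h hef
        rwa [show e - g - (e - f) = f - g by abel] at this
      · intro h
        have := M.add_mem h hef
        rwa [show f - g + (e - f) = e - g by abel] at this
    have h : ∃ g, g ∈ box ∧ e - g ∈ M := ⟨e, he, by rw [sub_self]; exact M.zero_mem⟩
    have h' : ∃ g, g ∈ box ∧ f - g ∈ M := ⟨f, hf, by rw [sub_self]; exact M.zero_mem⟩
    have h2 : rep e = h.choose := dif_pos h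
    have h3 : rep f = h'.choose := dif_pos h'
    rw [h2, h3]
    congr 1
  let S : Finset (Fin n → ℤ) := box.image rep
  have hSbox : ∀ e ∈ S, e ∈ box := by
    intro e he
    obtain ⟨f, hf, rfl⟩ := Finset.mem_image.1 he
    exact (hrep f hf).1
  have hS : S.card * L ^ r ≤ ((2 * r * Δ + 3) * L) ^ n := by
    refine classes v hv Δ L hΔ hL S (fun e he => (hbox e).1 (hSbox e he)) ?_
    intro e he f hf hef
    obtain ⟨e', he', rfl⟩ := Finset.mem_image.1 he
    obtain ⟨f', hf', rfl⟩ := Finset.mem_image.1 hf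
    refine hrep2 e' he' f' hf' ?_
    have h1 := (hrep e' he').2
    have h2 := (hrep f' hf').2
    have h3 := M.sub_mem (M.add_mem h1 hef) h2
    rwa [show e' - rep e' + (rep e' - rep f') - (f' - rep f') = e' - f' by abel] at h3
  let Sf : Finset (T → ℂ) := S.image fun e => fun y : T => mon y.1 e
  have hPS : P T L ≤ Submodule.span ℂ (Sf : Set (T → ℂ)) := by
    refine Submodule.span_le.2 ?_
    rintro f ⟨e, he, rfl⟩
    have he' := (hbox e).2 he
    have h1 : (fun y : T => mon y.1 e) = κ (e - rep e) • fun y : T => mon y.1 (rep e) := by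
      funext y
      rw [Pi.smul_apply, smul_eq_mul, ← hκ y.1 y.2 _ (hrep e he').2, ← mon_add (hT y.1 y.2),
        sub_add_cancel]
    rw [h1]
    refine Submodule.smul_mem _ _ (Submodule.subset_span ?_)
    rw [Finset.mem_coe]
    exact Finset.mem_image_of_mem _ (Finset.mem_image_of_mem _ he')
  have hfin : Module.Finite ℂ (Submodule.span ℂ (Sf : Set (T → ℂ))) :=
    FiniteDimensional.span_finset ℂ Sf
  have h1 : Module.finrank ℂ (P T L) ≤ S.card :=
    (Submodule.finrank_mono hPS).trans ((finrank_span_finset_le_card Sf).trans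
      Finset.card_image_le)
  exact ⟨(Nat.mul_le_mul_right _ h1).trans hS, Submodule.finiteDimensional_of_le hPS⟩

end Pool.Agent.R870.RZ
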