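import Pool.Agent.R870.RZ.Rel

/-!
# Counting the systems with an atypical intersection with a given coset
-/

set_option autoImplicit false

namespace Pool.Agent.R870.RZ

open MvPolynomial

/-- integral zeros of a polynomial in a box -/
theorem zeros {k : ℕ} (q : MvPolynomial (Fin k) ℂ) (hq : q ≠ 0) (E : ℕ) (hE : q.totalDegree ≤ E)
    (H : ℕ) (Z : Finset (Fin k → ℤ)) (hZ : ∀ y ∈ Z, ∀ i, |y i| ≤ H)
    (hZ0 : ∀ y ∈ Z, eval (fun i => (y i : ℂ)) q = 0) :
    Z.card * (2 * H + 1) ≤ E * (2 * H + 1) ^ k := by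
  classical
  let S : Finset ℂ := (Finset.Icc (-(H : ℤ)) H).image fun z : ℤ => (z : ℂ)
  have hS : S.card = 2 * H + 1 := by
    rw [Finset.card_image_of_injective _ Int.cast_injective, Int.card_Icc]
    omega
  have h1 := schwartz_zippel_totalDegree hq S
  rw [hS] at h1
  have hpos : (0 : ℚ≥0) < ((2 * H + 1 : ℕ) : ℚ≥0) := by exact_mod_cast Nat.succ_pos _
  rw [div_le_div_iff₀ (pow_pos hpos k) hpos] at h1
  have h2 : Z.card ≤ ((Fintype.piFinset fun _ : Fin k => S).filter
      fun f => eval f q = 0).card := by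
    refine Finset.card_le_card_of_injOn (fun y i => (y i : ℂ)) ?_ ?_
    · intro y hy
      rw [Finset.mem_coe, Finset.mem_filter, Fintype.mem_piFinset]
      refine ⟨fun i => Finset.mem_image_of_mem _ ?_, hZ0 y hy⟩
      rw [Finset.mem_Icc]
      exact abs_le.1 (hZ y hy i)
    · intro y _ y' _ h
      funext i
      exact Int.cast_injective (congrFun h i)
  have h3 : (((Fintype.piFinset fun _ : Fin k => S).filter
      fun f => eval f q = 0).card * (2 * H + 1) : ℕ) ≤ q.totalDegree * (2 * H + 1) ^ k := by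
    exact_mod_cast h1
  exact (Nat.mul_le_mul_right _ h2).trans (h3.trans (Nat.mul_le_mul_right _ hE))

variable {n k : ℕ}

/-- the box of coefficient vectors -/
noncomputable def cbox {n k : ℕ} (A : Fin k → Finset (Fin n → ℤ)) (H : ℕ) : Finset (Coeff A → ℤ) :=
  Fintype.piFinset fun _ => Finset.Icc (-(H : ℤ)) H

theorem mem_cbox {A : Fin k → Finset (Fin n → ℤ)} {H : ℕ} {c : Coeff A → ℤ} :
    c ∈ cbox A H ↔ ∀ x, |c x| ≤ H := by
  rw [cbox, Fintype.mem_piFinset]
  exact forall_congr' fun x => by rw [Finset.mem_Icc, abs_le]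

open Classical in
/-- the bad coefficient vectors for a coset and a set of coordinates -/
noncomputable def Bad (A : Fin k → Finset (Fin n → ℤ)) (H : ℕ) (T : Set (Fin n → ℂ))
    (J : Finset (Fin n)) : Finset (Coeff A → ℤ) :=
  (cbox A H).filter fun c => ∃ W : Set (Fin n → ℂ), W ⊆ system A c ∧ W ⊆ T ∧
    (idealOf W).IsPrime ∧
    AlgebraicIndependent ℂ (fun j : J => Ideal.Quotient.mk (idealOf W) (X (j : Fin n)))

/-- The number of bad coefficient vectors for one coset. -/
theorem card_Bad (A : Fin k → Finset (Fin n → ℤ)) (a : (j : Fin k) → {α // α ∈ A j}) (B : ℕ)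
    (hB : ∀ j, ∀ α ∈ A j, ∀ l, |α l - (a j : Fin n → ℤ) l| ≤ B) {r : ℕ}
    (v : Fin r → Fin n → ℤ) (hv : LinearIndependent ℤ v) (Δ : ℕ)
    (hΔ : ∀ i l, |v i l| ≤ Δ) (T : Set (Fin n → ℂ)) (hT : ∀ y ∈ T, ∀ l, y l ≠ 0)
    (κ : (Fin n → ℤ) → ℂ)
    (hκ : ∀ y ∈ T, ∀ a ∈ Submodule.span ℤ (Set.range v), mon y a = κ a) (J : Finset (Fin n))
    (hJ : n + 1 ≤ r + k + J.card) (H : ℕ) :
    (Bad A H T J).card * (2 * H + 1) ≤
      k * DD n k B Δ * (2 * H + 1) ^ Fintype.card (Coeff A) := by
  classical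
  let ch : Fin k → Coeff A := fun j => ⟨j, a j⟩
  have hch : Function.Injective ch := fun j j' h => congrArg Sigma.fst h
  let Rest : Type := {x : Coeff A // x ∉ Set.range ch}
  let π : (Coeff A → ℤ) → (Rest → ℤ) := fun c x => c x.1
  have hcard : Fintype.card Rest + k = Fintype.card (Coeff A) := by
    have h1 := Fintype.card_subtype_compl (fun x : Coeff A => x ∈ Set.range ch)
    have h2 : Fintype.card {x : Coeff A // x ∈ Set.range ch} = k := by
      rw [Fintype.card_congr (Equiv.ofInjective ch hch).symm, Fintype.card_fin]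
    have h3 : Fintype.card {x : Coeff A // x ∈ Set.range ch} ≤ Fintype.card (Coeff A) :=
      Fintype.card_subtype_le _
    change Fintype.card {x : Coeff A // ¬ x ∈ Set.range ch} + k = _
    rw [h1, h2]
    rw [h2] at h3
    omega
  -- the fibres
  have hfib : ∀ ρ : Rest → ℤ, (((Bad A H T J).filter fun c => π c = ρ).card) * (2 * H + 1) ≤
      (k * DD n k B Δ) * (2 * H + 1) ^ k := by
    intro ρ
    -- the functions g
    let cc : (j : Fin k) → {α // α ∈ A j} → ℂ := fun j α =>
      if h : (⟨j, α⟩ : Coeff A) ∉ Set.range ch then (ρ ⟨⟨j, α⟩, h⟩ : ℂ) else 0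
    let g : Fin k → T → ℂ := fun j y => ∑ α : {α // α ∈ A j}, cc j α *
      mon y.1 ((α : Fin n → ℤ) - (a j : Fin n → ℤ))
    have hg : ∀ j, g j ∈ P T B := by
      intro j
      have h1 : g j = ∑ α : {α // α ∈ A j}, cc j α •
          (fun y : T => mon y.1 ((α : Fin n → ℤ) - (a j : Fin n → ℤ))) := by
        funext y
        rw [Finset.sum_apply]
        rfl
      rw [h1]
      exact Submodule.sum_mem _ fun α _ => Submodule.smul_mem _ _
        (mon_mem_P fun l => hB j α α.2 l)
    obtain ⟨q, hq0, hqd, hq⟩ := exists_poly v hv Δ B hΔ T hT κ hκ g hg J hJ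
    let Z : Finset (Fin k → ℤ) := ((Bad A H T J).filter fun c => π c = ρ).image
      fun c j => - c (ch j)
    have hZcard : Z.card = ((Bad A H T J).filter fun c => π c = ρ).card := by
      refine Finset.card_image_of_injOn ?_
      intro c hc c' hc' h
      have h1 := (Finset.mem_filter.1 (Finset.mem_coe.1 hc)).2
      have h2 := (Finset.mem_filter.1 (Finset.mem_coe.1 hc')).2
      funext x
      by_cases hx : x ∈ Set.range ch
      · obtain ⟨j, rfl⟩ := hx
        have := congrFun h j
        exact neg_injective this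
      · have h3 : π c ⟨x, hx⟩ = π c' ⟨x, hx⟩ := by rw [h1, h2]
        exact h3
    rw [← hZcard]
    refine zeros q hq0 _ hqd H Z ?_ ?_
    · intro y hy i
      obtain ⟨c, hc, rfl⟩ := Finset.mem_image.1 hy
      rw [abs_neg]
      exact mem_cbox.1 (Finset.mem_filter.1 (Finset.mem_filter.1 hc).1).1 _
    · intro y hy
      obtain ⟨c, hc, rfl⟩ := Finset.mem_image.1 hy
      obtain ⟨hc1, hc2⟩ := Finset.mem_filter.1 hc
      obtain ⟨_, W, hWV, hWT, hWp, hWJ⟩ := Finset.mem_filter.1 hc1
      refine hq W hWT _ ?_ hWJ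
      intro y hy i
      have hy0 : ∀ l, y l ≠ 0 := hT y (hWT hy)
      have h1 := (hWV hy).2 i
      -- divide by the chosen monomial
      have h2 : ∀ α : {α // α ∈ A i}, ∏ l, y l ^ (α : Fin n → ℤ) l =
          mon y ((α : Fin n → ℤ) - (a i : Fin n → ℤ)) * mon y (a i : Fin n → ℤ) := by
        intro α
        rw [← mon_add hy0, sub_add_cancel]
        rfl
      have h3 : (∑ α : {α // α ∈ A i}, (c ⟨i, α⟩ : ℂ) *
          mon y ((α : Fin n → ℤ) - (a i : Fin n → ℤ))) * mon y (a i : Fin n → ℤ) = 0 := by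
        rw [Finset.sum_mul, ← h1]
        refine Finset.sum_congr rfl fun α _ => ?_
        rw [h2 α, mul_assoc]
      have h4 := (mul_eq_zero.1 h3).resolve_right (mon_ne hy0 _)
      -- split off the term of the chosen exponent
      have h5 : g i ⟨y, hWT hy⟩ = ∑ α ∈ Finset.univ.erase (a i), (c ⟨i, α⟩ : ℂ) *
          mon y ((α : Fin n → ℤ) - (a i : Fin n → ℤ)) := by
        have h6 : g i ⟨y, hWT hy⟩ = ∑ α : {α // α ∈ A i}, cc i α *
          mon y ((α : Fin n → ℤ) - (a i : Fin n → ℤ)) := rfl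
        rw [h6, ← Finset.add_sum_erase _ _ (Finset.mem_univ (a i))]
        have h7 : cc i (a i) = 0 := dif_neg fun h => h ⟨i, rfl⟩
        rw [h7, zero_mul, zero_add]
        refine Finset.sum_congr rfl fun α hα => ?_
        have h8 : (⟨i, α⟩ : Coeff A) ∉ Set.range ch := by
          rintro ⟨j, hj⟩
          have h9 : j = i := congrArg Sigma.fst hj
          subst h9
          have h10 : a j = α := by simpa [ch] using hj
          exact (Finset.ne_of_mem_erase hα) h10.symm
        have h9 : cc i α = (ρ ⟨⟨i, α⟩, h8⟩ : ℂ) := dif_pos h8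
        rw [h9, ← hc2]
      rw [h5]
      rw [← Finset.add_sum_erase _ _ (Finset.mem_univ (a i)), sub_self, mon_zero, mul_one] at h4
      push_cast
      exact eq_neg_of_add_eq_zero_right h4
  -- summation over the fibres
  have h1 := Finset.card_le_mul_card_image (s := Bad A H T J) (f := π)
    ((k * DD n k B Δ) * (2 * H + 1) ^ k / (2 * H + 1)) (by
      intro ρ _
      rw [Nat.le_div_iff_mul_le (by omega)]
      exact hfib ρ)
  have h2 : ((Bad A H T J).image π).card ≤ (2 * H + 1) ^ Fintype.card Rest := by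
    have h3 : (Bad A H T J).image π ⊆
        Fintype.piFinset fun _ : Rest => Finset.Icc (-(H : ℤ)) H := by
      intro ρ hρ
      obtain ⟨c, hc, rfl⟩ := Finset.mem_image.1 hρ
      rw [Fintype.mem_piFinset]
      intro x
      rw [Finset.mem_Icc]
      exact abs_le.1 (mem_cbox.1 (Finset.mem_filter.1 hc).1 _)
    refine (Finset.card_le_card h3).trans ?_
    rw [Fintype.card_piFinset, Finset.prod_const, Finset.card_univ, Int.card_Icc]
    refine Nat.pow_le_pow_left ?_ _
    omega
  calc (Bad A H T J).card * (2 * H + 1)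
      ≤ (((k * DD n k B Δ) * (2 * H + 1) ^ k / (2 * H + 1)) *
          (2 * H + 1) ^ Fintype.card Rest) * (2 * H + 1) :=
        Nat.mul_le_mul_right _ (h1.trans (Nat.mul_le_mul_left _ h2))
    _ = (((k * DD n k B Δ) * (2 * H + 1) ^ k / (2 * H + 1)) * (2 * H + 1)) *
          (2 * H + 1) ^ Fintype.card Rest := by ring
    _ ≤ ((k * DD n k B Δ) * (2 * H + 1) ^ k) * (2 * H + 1) ^ Fintype.card Rest :=
        Nat.mul_le_mul_right _ (Nat.div_mul_le_self _ _)
    _ = k * DD n k B Δ * (2 * H + 1) ^ Fintype.card (Coeff A) := by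
        rw [← hcard, pow_add]
        ring

end Pool.Agent.R870.RZ
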