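import Pool.Agent.H364R2.Box

/-!
# Growth of the span of Laurent monomials in the generic point of a variety
-/

set_option autoImplicit false

namespace Pool.Agent.R870.RZ

open MvPolynomial
open Pool.Agent.H364R2 (box mem_box finrank_box box_mono mul_mem_box exists_mem_box)

/-- box of polynomials -/
noncomputable abbrev bx (s N : ℕ) : Submodule ℂ (MvPolynomial (Fin s) ℂ) :=
  box ℂ (fun _ : Fin s => 1) N

variable {Ω : Type} [Field Ω] [Algebra ℂ Ω]

/-- the filtration -/
def InFil {s m : ℕ} (g : MvPolynomial (Fin s) ℂ →ₐ[ℂ] Ω) (b : Fin m → Ω) (N : ℕ) (y : Ω) : Prop :=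
  ∃ P : Fin m → MvPolynomial (Fin s) ℂ, (∀ l, P l ∈ bx s N) ∧ y = ∑ l, g (P l) * b l

theorem InFil.mul {s m : ℕ} {g : MvPolynomial (Fin s) ℂ →ₐ[ℂ] Ω} {b : Fin m → Ω} {N δ : ℕ}
    {y z : Ω} (hz : ∀ l, InFil g b δ (z * b l)) (hy : InFil g b N y) :
    InFil g b (N + δ) (z * y) := by
  obtain ⟨P, hP, rfl⟩ := hy
  choose Q hQ hQ' using hz
  refine ⟨fun i => ∑ l, P l * Q l i, fun i => Submodule.sum_mem _ fun l _ =>
    mul_mem_box ℂ _ (hP l) (hQ l i), ?_⟩
  calc z * ∑ l, g (P l) * b l = ∑ l, g (P l) * (z * b l) := by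
        rw [Finset.mul_sum]
        exact Finset.sum_congr rfl fun l _ => by ring
    _ = ∑ l, g (P l) * ∑ i, g (Q l i) * b i :=
        Finset.sum_congr rfl fun l _ => by rw [hQ' l]
    _ = ∑ l, ∑ i, g (P l * Q l i) * b i := by
        refine Finset.sum_congr rfl fun l _ => ?_
        rw [Finset.mul_sum]
        exact Finset.sum_congr rfl fun i _ => by rw [map_mul]; ring
    _ = ∑ i, g (∑ l, P l * Q l i) * b i := by
        rw [Finset.sum_comm]
        refine Finset.sum_congr rfl fun i _ => ?_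
        rw [map_sum, Finset.sum_mul]

theorem InFil.pow {s m : ℕ} {g : MvPolynomial (Fin s) ℂ →ₐ[ℂ] Ω} {b : Fin m → Ω} {N δ : ℕ}
    {y z : Ω} (hz : ∀ l, InFil g b δ (z * b l)) (hy : InFil g b N y) (k : ℕ) :
    InFil g b (N + k * δ) (z ^ k * y) := by
  induction k with
  | zero => simpa using hy
  | succ k ih =>
    have h1 := InFil.mul hz ih
    rw [show N + (k + 1) * δ = N + k * δ + δ by ring, pow_succ', mul_assoc]
    exact h1

theorem InFil.mono {s m : ℕ} {g : MvPolynomial (Fin s) ℂ →ₐ[ℂ] Ω} {b : Fin m → Ω} {N N' : ℕ}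
    (h : N ≤ N') {y : Ω} (hy : InFil g b N y) : InFil g b N' y := by
  obtain ⟨P, hP, rfl⟩ := hy
  exact ⟨P, fun l => box_mono ℂ _ h (hP l), rfl⟩

theorem InFil.card_le {s m : ℕ} {g : MvPolynomial (Fin s) ℂ →ₐ[ℂ] Ω} {b : Fin m → Ω} {N : ℕ}
    {ι : Type} [Fintype ι] (f : ι → Ω) (hf : ∀ a, InFil g b N (f a))
    (hli : LinearIndependent ℂ f) : Fintype.card ι ≤ m * (N + 1) ^ s := by
  classical
  let Ψ : (Fin m → bx s N) →ₗ[ℂ] Ω :=
    { toFun := fun P => ∑ l, g (P l).1 * b l
      map_add' := by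
        intro P Q
        rw [← Finset.sum_add_distrib]
        refine Finset.sum_congr rfl fun l _ => ?_
        rw [Pi.add_apply, Submodule.coe_add, map_add, add_mul]
      map_smul' := by
        intro c P
        rw [RingHom.id_apply, Finset.smul_sum]
        refine Finset.sum_congr rfl fun l _ => ?_
        rw [Pi.smul_apply, Submodule.coe_smul, map_smul, smul_mul_assoc] }
  have hfr : ∀ a, f a ∈ LinearMap.range Ψ := by
    intro a
    obtain ⟨P, hP, h⟩ := hf a
    exact ⟨fun l => ⟨P l, hP l⟩, h.symm⟩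
  have hli' : LinearIndependent ℂ (fun a => (⟨f a, hfr a⟩ : LinearMap.range Ψ)) :=
    LinearIndependent.of_comp (LinearMap.range Ψ).subtype hli
  refine (hli'.fintype_card_le_finrank).trans ((LinearMap.finrank_range_le Ψ).trans ?_)
  rw [Module.finrank_pi_fintype]
  simp only [finrank_box, Finset.prod_const, Finset.card_univ, Fintype.card_fin, mul_one,
    Finset.sum_const, smul_eq_mul]
  exact le_rfl

/-- Growth: the number of linearly independent Laurent monomials of size at most `L` in elements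
of a field of transcendence degree at most `d` is at most `C L ^ d`. -/
theorem growth {n : ℕ} (x : Fin n → Ω) (hx : ∀ j, x j ≠ 0) (d : ℕ)
    (hd : Algebra.trdeg ℂ Ω ≤ d) :
    ∃ C : ℕ, 1 ≤ C ∧ ∀ L : ℕ, 1 ≤ L → ∀ (ι : Type) [Fintype ι] (e : ι → Fin n → ℤ),
      (∀ a l, |e a l| ≤ L) → LinearIndependent ℂ (fun a => ∏ l, x l ^ e a l) →
        Fintype.card ι ≤ C * L ^ d := by
  classical
  let G : Set Ω := Set.range x ∪ Set.range fun j => (x j)⁻¹
  have hG : G.Finite := (Set.finite_range _).union (Set.finite_range _)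
  let A : Subalgebra ℂ Ω := Algebra.adjoin ℂ G
  have hft : Algebra.FiniteType ℂ A :=
    A.fg_iff_finiteType.1 (Subalgebra.fg_def.2 ⟨G, hG, rfl⟩)
  obtain ⟨s, g, hg, hfin⟩ := exists_finite_inj_algHom_of_fg ℂ A
  have hind : AlgebraicIndependent ℂ (fun i : Fin s => ((g (X i) : A) : Ω)) := by
    have h1 : (aeval (fun i : Fin s => ((g (X i) : A) : Ω)) :
        MvPolynomial (Fin s) ℂ →ₐ[ℂ] Ω) = A.val.comp g := by
      ext i
      simp
    rw [AlgebraicIndependent, h1]
    exact Subtype.val_injective.comp hg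
  have hsd : s ≤ d := by
    have h1 := hind.cardinalMk_le_trdeg
    rw [Cardinal.mk_fin] at h1
    exact_mod_cast h1.trans hd
  -- module generators
  let _ : Algebra (MvPolynomial (Fin s) ℂ) A := g.toRingHom.toAlgebra
  have hmf : Module.Finite (MvPolynomial (Fin s) ℂ) A := hfin
  obtain ⟨m, b, hb⟩ := Module.Finite.exists_fin (R := MvPolynomial (Fin s) ℂ) (M := A)
  let g' : MvPolynomial (Fin s) ℂ →ₐ[ℂ] Ω := A.val.comp g
  let b' : Fin m → Ω := fun l => (b l : Ω)
  have hrep : ∀ y : A, ∃ P : Fin m → MvPolynomial (Fin s) ℂ, (y : Ω) = ∑ l, g' (P l) * b' l := by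
    intro y
    have h1 : y ∈ Submodule.span (MvPolynomial (Fin s) ℂ) (Set.range b) := by
      rw [hb]; exact Submodule.mem_top
    obtain ⟨P, hP⟩ := (Submodule.mem_span_range_iff_exists_fun _).1 h1
    refine ⟨P, ?_⟩
    rw [← hP]
    have h2 : ∀ l, P l • b l = g (P l) * b l := fun l => Algebra.smul_def _ _
    simp only [h2]
    rw [AddSubmonoidClass.coe_finsetSum]
    rfl
  have hfil : ∀ y : A, ∃ N, InFil g' b' N (y : Ω) := by
    intro y
    obtain ⟨P, hP⟩ := hrep y
    choose N hN1 hN2 using fun l => exists_mem_box ℂ (fun _ : Fin s => 1) (fun _ => le_rfl) (P l)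
    refine ⟨∑ l, N l, P, fun l => box_mono ℂ _ ?_ (hN2 l), hP⟩
    exact Finset.single_le_sum (f := N) (fun _ _ => Nat.zero_le _) (Finset.mem_univ l)
  have hxA : ∀ j, x j ∈ A := fun j => Algebra.subset_adjoin (Or.inl ⟨j, rfl⟩)
  have hxA' : ∀ j, (x j)⁻¹ ∈ A := fun j => Algebra.subset_adjoin (Or.inr ⟨j, rfl⟩)
  choose N1 hN1 using fun p : Fin n × Fin m => hfil (⟨x p.1, hxA p.1⟩ * b p.2)
  choose N2 hN2 using fun p : Fin n × Fin m => hfil (⟨(x p.1)⁻¹, hxA' p.1⟩ * b p.2)
  obtain ⟨N3, hN3⟩ := hfil 1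
  let δ : ℕ := ∑ p, N1 p + ∑ p, N2 p + N3
  have hd1 : ∀ j l, InFil g' b' δ (x j * b' l) := by
    intro j l
    refine InFil.mono ?_ (hN1 (j, l))
    have := Finset.single_le_sum (f := N1) (fun _ _ => Nat.zero_le _) (Finset.mem_univ (j, l))
    omega
  have hd2 : ∀ j l, InFil g' b' δ ((x j)⁻¹ * b' l) := by
    intro j l
    refine InFil.mono ?_ (hN2 (j, l))
    have := Finset.single_le_sum (f := N2) (fun _ _ => Nat.zero_le _) (Finset.mem_univ (j, l))
    omega
  have hd3 : InFil g' b' δ 1 := InFil.mono (by omega) hN3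
  refine ⟨(m + 1) * (δ * (1 + n) + 1) ^ d, Nat.mul_pos (by omega) (pow_pos (by omega) _),
    fun L hL ι _ e he hli => ?_⟩
  have hmon : ∀ a, InFil g' b' (δ * (1 + n * L)) (∏ l, x l ^ e a l) := by
    intro a
    have key : ∀ S : Finset (Fin n), InFil g' b' (δ + ∑ l ∈ S, (e a l).natAbs * δ)
        ((∏ l ∈ S, x l ^ e a l) * 1) := by
      intro S
      induction S using Finset.induction_on with
      | empty => simpa using hd3
      | insert j S hj ih =>
        rw [Finset.prod_insert hj, Finset.sum_insert hj, mul_assoc,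
          show δ + ((e a j).natAbs * δ + ∑ l ∈ S, (e a l).natAbs * δ) =
            δ + ∑ l ∈ S, (e a l).natAbs * δ + (e a j).natAbs * δ by ring]
        rcases Int.natAbs_eq (e a j) with h | h
        · have h1 : x j ^ e a j = x j ^ (e a j).natAbs := by
            conv_lhs => rw [h]
            rw [zpow_natCast]
          rw [h1]
          exact InFil.pow (hd1 j) ih _
        · have h1 : x j ^ e a j = (x j)⁻¹ ^ (e a j).natAbs := by
            conv_lhs => rw [h]
            rw [zpow_neg, zpow_natCast, inv_pow]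
          rw [h1]
          exact InFil.pow (hd2 j) ih _
    have h1 := key Finset.univ
    rw [mul_one] at h1
    refine InFil.mono ?_ h1
    have h2 : ∑ l, (e a l).natAbs * δ ≤ ∑ _l : Fin n, L * δ := by
      refine Finset.sum_le_sum fun l _ => Nat.mul_le_mul_right _ ?_
      have h3 : ((e a l).natAbs : ℤ) ≤ L := by rw [Int.natCast_natAbs]; exact he a l
      exact_mod_cast h3
    rw [Finset.sum_const, Finset.card_univ, Fintype.card_fin, smul_eq_mul] at h2
    calc δ + ∑ l, (e a l).natAbs * δ ≤ δ + n * (L * δ) := by omega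
      _ = δ * (1 + n * L) := by ring
  have h1 := InFil.card_le _ hmon hli
  refine h1.trans ?_
  have h2 : (δ * (1 + n * L) + 1) ^ s ≤ ((δ * (1 + n) + 1) * L) ^ s := by
    refine Nat.pow_le_pow_left ?_ _
    nlinarith [Nat.zero_le δ, Nat.zero_le (δ * n)]
  have h3 : ((δ * (1 + n) + 1) * L) ^ s ≤ ((δ * (1 + n) + 1) * L) ^ d :=
    Nat.pow_le_pow_right (Nat.mul_pos (by omega) hL) hsd
  calc m * (δ * (1 + n * L) + 1) ^ s ≤ (m + 1) * ((δ * (1 + n) + 1) * L) ^ d :=
        Nat.mul_le_mul (by omega) (h2.trans h3)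
    _ = _ := by rw [mul_pow]; ring

end Pool.Agent.R870.RZ
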