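import Pool.Agent.R870.RZ.Basic
import Pool.Agent.R870.RZ.Defs

/-!
# Relations between functions on a coset, and the resulting condition on the constants
-/

set_option autoImplicit false

namespace Pool.Agent.R870.RZ

open MvPolynomial

variable {n : ℕ}

/-- the degree bound -/
def DD (n k B Δ : ℕ) : ℕ := (2 * n * Δ + 3) ^ n * (k * B + n + 1) ^ n

theorem DD_pos (n k B Δ : ℕ) : 1 ≤ DD n k B Δ :=
  Nat.mul_pos (pow_pos (by omega) _) (pow_pos (by omega) _)

theorem exists_rel {r k : ℕ} (v : Fin r → Fin n → ℤ) (hv : LinearIndependent ℤ v) (Δ B : ℕ)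
    (hΔ : ∀ i l, |v i l| ≤ Δ) (T : Set (Fin n → ℂ)) (hT : ∀ y ∈ T, ∀ l, y l ≠ 0)
    (κ : (Fin n → ℤ) → ℂ)
    (hκ : ∀ y ∈ T, ∀ a ∈ Submodule.span ℤ (Set.range v), mon y a = κ a)
    (g : Fin k → T → ℂ) (hg : ∀ i, g i ∈ P T B) (J : Finset (Fin n))
    (hJ : n + 1 ≤ r + k + J.card) :
    ∃ p : (Fin k → Fin (DD n k B Δ + 1)) × (J → Fin (DD n k B Δ + 1)) → ℂ,
      (∃ x, p x ≠ 0) ∧ ∀ y : T, ∑ x, p x * ((∏ i, g i y ^ (x.1 i : ℕ)) *
        ∏ j : J, y.1 j ^ (x.2 j : ℕ)) = 0 := by
  classical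
  set D := DD n k B Δ with hD
  let F : (Fin k → Fin (D + 1)) × (J → Fin (D + 1)) → T → ℂ := fun x =>
    (∏ i, g i ^ (x.1 i : ℕ)) * ∏ j : J, (fun y : T => y.1 j) ^ (x.2 j : ℕ)
  have hr : r ≤ n := by
    have := hv.fintype_card_le_finrank
    rwa [Fintype.card_fin, Module.finrank_fin_fun] at this
  set L := (k * B + n + 1) * D with hL
  have hD1 : 1 ≤ D := DD_pos n k B Δ
  have hL1 : 1 ≤ L := Nat.mul_pos (by omega) hD1
  have hF : ∀ x, F x ∈ P T L := by
    intro x
    have h1 : ∏ i, g i ^ (x.1 i : ℕ) ∈ P T (∑ i : Fin k, (x.1 i : ℕ) * B) :=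
      P_prod hT Finset.univ _ _ fun i _ => P_pow hT (hg i) _
    have h2 : ∏ j : J, (fun y : T => y.1 j) ^ (x.2 j : ℕ) ∈ P T (∑ j : J, (x.2 j : ℕ) * 1) := by
      refine P_prod hT Finset.univ _ _ fun j _ => P_pow hT ?_ _
      have h3 := mon_mem_P (T := T) (L := 1) (e := Pi.single (j : Fin n) 1) (by
        intro l
        by_cases h : l = (j : Fin n)
        · subst h; simp
        · rw [Pi.single_eq_of_ne h]; simp)
      simpa only [mon_single] using h3
    refine P_mono ?_ (P_mul hT h1 h2)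
    have h4 : ∑ i : Fin k, (x.1 i : ℕ) * B ≤ k * (D * B) := by
      calc ∑ i : Fin k, (x.1 i : ℕ) * B ≤ ∑ _i : Fin k, D * B :=
            Finset.sum_le_sum fun i _ => Nat.mul_le_mul_right _ (Nat.lt_succ_iff.1 (x.1 i).2)
        _ = k * (D * B) := by simp
    have h5 : ∑ j : J, (x.2 j : ℕ) * 1 ≤ n * D := by
      calc ∑ j : J, (x.2 j : ℕ) * 1 ≤ ∑ _j : J, D := by
            refine Finset.sum_le_sum fun j _ => ?_
            rw [mul_one]
            exact Nat.lt_succ_iff.1 (x.2 j).2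
        _ = J.card * D := by simp
        _ ≤ n * D := Nat.mul_le_mul_right _ (by simpa using Finset.card_le_univ J)
    calc _ ≤ k * (D * B) + n * D := add_le_add h4 h5
      _ ≤ L := by rw [hL]; nlinarith
  obtain ⟨hfin, hmf⟩ := finrank_P v hv Δ L hΔ hL1 T hT κ hκ
  have hnli : ¬ LinearIndependent ℂ F := by
    intro hli
    have hli' : LinearIndependent ℂ (fun x => (⟨F x, hF x⟩ : P T L)) :=
      LinearIndependent.of_comp (P T L).subtype hli
    have h1 := hli'.fintype_card_le_finrank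
    rw [Fintype.card_prod, Fintype.card_fun, Fintype.card_fun, Fintype.card_fin,
      Fintype.card_fin, Fintype.card_coe, ← pow_add] at h1
    have h2 : (D + 1) ^ (n - r + 1) ≤ (D + 1) ^ (k + J.card) :=
      Nat.pow_le_pow_right (by omega) (by omega)
    have h3 : (D + 1) ^ (n - r + 1) * L ^ r ≤ ((2 * r * Δ + 3) * L) ^ n :=
      (Nat.mul_le_mul_right _ (h2.trans h1)).trans hfin
    have h4 : ((2 * r * Δ + 3) * L) ^ n = ((2 * r * Δ + 3) ^ n * L ^ (n - r)) * L ^ r := by
      rw [mul_pow, mul_assoc ((2 * r * Δ + 3) ^ n), ← pow_add, Nat.sub_add_cancel hr]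
    rw [h4] at h3
    have h5 := Nat.le_of_mul_le_mul_right h3 (pow_pos (by omega) r)
    have h6 : (D + 1) ^ (n - r + 1) ≤ D * D ^ (n - r) := by
      refine h5.trans ?_
      rw [hL, mul_pow, ← mul_assoc]
      refine Nat.mul_le_mul_right _ ?_
      rw [hD, DD]
      refine Nat.mul_le_mul (Nat.pow_le_pow_left ?_ n) (Nat.pow_le_pow_right (by omega) (by omega))
      have : 2 * r * Δ ≤ 2 * n * Δ := Nat.mul_le_mul_right _ (by omega)
      omega
    have h7 : D * D ^ (n - r) < (D + 1) ^ (n - r + 1) := by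
      rw [← pow_succ']
      exact Nat.pow_lt_pow_left (by omega) (by omega)
    omega
  rw [Fintype.not_linearIndependent_iff] at hnli
  obtain ⟨p, hp, x, hx⟩ := hnli
  refine ⟨p, ⟨x, hx⟩, fun y => ?_⟩
  have h1 := congrFun hp y
  rw [Finset.sum_apply] at h1
  simpa [F, Finset.prod_apply] using h1

/-- The condition on the constants values of the functions `g i` on an irreducible subset. -/
theorem exists_poly {r k : ℕ} (v : Fin r → Fin n → ℤ) (hv : LinearIndependent ℤ v) (Δ B : ℕ)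
    (hΔ : ∀ i l, |v i l| ≤ Δ) (T : Set (Fin n → ℂ)) (hT : ∀ y ∈ T, ∀ l, y l ≠ 0)
    (κ : (Fin n → ℤ) → ℂ)
    (hκ : ∀ y ∈ T, ∀ a ∈ Submodule.span ℤ (Set.range v), mon y a = κ a)
    (g : Fin k → T → ℂ) (hg : ∀ i, g i ∈ P T B) (J : Finset (Fin n))
    (hJ : n + 1 ≤ r + k + J.card) :
    ∃ q : MvPolynomial (Fin k) ℂ, q ≠ 0 ∧ q.totalDegree ≤ k * DD n k B Δ ∧
      ∀ (W : Set (Fin n → ℂ)) (hW : W ⊆ T) (c : Fin k → ℂ),
        (∀ (y : Fin n → ℂ) (hy : y ∈ W) (i : Fin k), g i ⟨y, hW hy⟩ = c i) →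
        AlgebraicIndependent ℂ (fun j : J => Ideal.Quotient.mk (idealOf W) (X (j : Fin n))) →
        eval c q = 0 := by
  classical
  have hrel := exists_rel v hv Δ B hΔ T hT κ hκ g hg J hJ
  obtain ⟨D, hD⟩ : ∃ D, D = DD n k B Δ := ⟨_, rfl⟩
  rw [← hD] at hrel ⊢
  obtain ⟨p, ⟨⟨u0, w0⟩, hp0⟩, hp⟩ := hrel
  let mo : (Fin k → Fin (D + 1)) → (Fin k →₀ ℕ) := fun u => Finsupp.equivFunOnFinite.symm
    fun i => (u i : ℕ)
  have hmo : Function.Injective mo := by
    intro u u' h
    funext i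
    have := DFunLike.congr_fun h i
    exact Fin.ext this
  let q : MvPolynomial (Fin k) ℂ := ∑ u, monomial (mo u) (p (u, w0))
  have hqc : ∀ u, coeff (mo u) q = p (u, w0) := by
    intro u
    rw [coeff_sum, Finset.sum_eq_single u]
    · rw [coeff_monomial, if_pos rfl]
    · intro u' _ h
      rw [coeff_monomial, if_neg fun h' => h (hmo h')]
    · intro h
      exact absurd (Finset.mem_univ u) h
  have hev : ∀ c : Fin k → ℂ, eval c q = ∑ u, p (u, w0) * ∏ i, c i ^ (u i : ℕ) := by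
    intro c
    rw [map_sum]
    refine Finset.sum_congr rfl fun u _ => ?_
    rw [eval_monomial, Finsupp.prod_fintype _ _ fun _ => pow_zero _]
    rfl
  refine ⟨q, ?_, ?_, ?_⟩
  · intro h
    apply hp0
    rw [← hqc, h, coeff_zero]
  · refine (totalDegree_finsetSum_le (d := k * D) fun u _ => ?_)
    refine (totalDegree_monomial_le _ _).trans ?_
    rw [Finsupp.sum_fintype _ _ fun _ => rfl]
    calc ∑ i, (mo u) i ≤ ∑ _i : Fin k, D := Finset.sum_le_sum fun i _ =>
          Nat.lt_succ_iff.1 (u i).2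
      _ = k * D := by simp
  · intro W hW c hc hind
    rw [hev]
    -- the polynomial in the independent coordinates
    let mj : (J → Fin (D + 1)) → (J →₀ ℕ) := fun w => Finsupp.equivFunOnFinite.symm
      fun j => (w j : ℕ)
    have hmj : Function.Injective mj := by
      intro w w' h
      funext i
      have := DFunLike.congr_fun h i
      exact Fin.ext this
    let R : MvPolynomial J ℂ := ∑ w, monomial (mj w) (∑ u, p (u, w) * ∏ i, c i ^ (u i : ℕ))
    have hR : R = 0 := by
      have h1 := algebraicIndependent_iff.1 hind R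
      apply h1
      have h2 : aeval (fun j : J => Ideal.Quotient.mk (idealOf W) (X (j : Fin n))) R =
          Ideal.Quotient.mk (idealOf W) (rename (fun j : J => (j : Fin n)) R) := by
        have h3 : (aeval (fun j : J => Ideal.Quotient.mk (idealOf W) (X (j : Fin n))) :
            MvPolynomial J ℂ →ₐ[ℂ] _) = (Ideal.Quotient.mkₐ ℂ (idealOf W)).comp
              (rename (fun j : J => (j : Fin n))) := by
          ext j
          simp
        exact DFunLike.congr_fun h3 R
      rw [h2, Ideal.Quotient.eq_zero_iff_mem, mem_idealOf]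
      intro y hy
      rw [eval_rename, map_sum]
      have h4 := hp ⟨y, hW hy⟩
      rw [Fintype.sum_prod_type_right] at h4
      rw [← h4]
      refine Finset.sum_congr rfl fun w _ => ?_
      rw [eval_monomial, Finsupp.prod_fintype _ _ fun _ => pow_zero _, Finset.sum_mul]
      refine Finset.sum_congr rfl fun u _ => ?_
      rw [mul_assoc]
      congr 2
      exact Finset.prod_congr rfl fun i _ => by rw [hc y hy i]
    have h5 : coeff (mj w0) R = ∑ u, p (u, w0) * ∏ i, c i ^ (u i : ℕ) := by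
      rw [coeff_sum, Finset.sum_eq_single w0]
      · rw [coeff_monomial, if_pos rfl]
      · intro w' _ h
        rw [coeff_monomial, if_neg fun h' => h (hmj h')]
      · intro h
        exact absurd (Finset.mem_univ w0) h
    rw [← h5, hR, coeff_zero]

end Pool.Agent.R870.RZ
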