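import Pool.Agent.R870.RZ.Growth
import Pool.Agent.R870.RZ.Main

/-!
# Translates of an arbitrary variety by the points of a grid
-/

set_option autoImplicit false

namespace Pool.Agent.R870.RZ

open MvPolynomial

variable {n : ℕ}

/-- The translate of `V` by the point `g`. -/
def translate (g : Fin n → ℂ) (V : Set (Fin n → ℂ)) : Set (Fin n → ℂ) :=
  {y | ∃ x ∈ V, ∀ i, y i = g i * x i}

/-- the exponent `∑ u_i v_i` -/
def ex {r : ℕ} (v : Fin r → Fin n → ℤ) (u : Fin r → ℕ) : Fin n → ℤ := ∑ i, (u i : ℤ) • v i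

theorem ex_inj {r : ℕ} {v : Fin r → Fin n → ℤ} (hv : LinearIndependent ℤ v) {u u' : Fin r → ℕ}
    (h : ex v u = ex v u') : u = u' := by
  have h1 : ∑ i, ((u i : ℤ) - u' i) • v i = 0 := by
    simp only [sub_smul]
    rw [Finset.sum_sub_distrib]
    exact sub_eq_zero.2 h
  have h2 := Fintype.linearIndependent_iff.1 hv _ h1
  funext i
  have := h2 i
  omega

theorem ex_abs {r : ℕ} {v : Fin r → Fin n → ℤ} {Δ D : ℕ} (hΔ : ∀ i l, |v i l| ≤ Δ)
    {u : Fin r → ℕ} (hu : ∀ i, u i ≤ D) (l : Fin n) : |ex v u l| ≤ (r * (D * Δ) : ℕ) := by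
  rw [ex, Finset.sum_apply]
  refine (Finset.abs_sum_le_sum_abs _ _).trans ?_
  calc ∑ i, |((u i : ℤ) • v i) l| ≤ ∑ _i : Fin r, ((D * Δ : ℕ) : ℤ) := by
        refine Finset.sum_le_sum fun i _ => ?_
        rw [Pi.smul_apply, smul_eq_mul, abs_mul, Nat.cast_mul]
        have h1 : |(u i : ℤ)| ≤ D := by
          rw [abs_of_nonneg (by positivity)]
          exact_mod_cast hu i
        exact mul_le_mul h1 (hΔ i l) (abs_nonneg _) (by positivity)
    _ = ((r * (D * Δ) : ℕ) : ℤ) := by simp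

theorem mon_ex {r : ℕ} {v : Fin r → Fin n → ℤ} {y : Fin n → ℂ} (hy : ∀ l, y l ≠ 0)
    (u : Fin r → ℕ) : mon y (ex v u) = ∏ i, mon y (v i) ^ u i := by
  have key : ∀ S : Finset (Fin r), mon y (∑ i ∈ S, (u i : ℤ) • v i) =
      ∏ i ∈ S, mon y (v i) ^ u i := by
    intro S
    classical
    induction S using Finset.induction_on with
    | empty => simp [mon_zero]
    | insert i S hi ih =>
      rw [Finset.sum_insert hi, Finset.prod_insert hi, mon_add hy, ih]
      congr 1
      rw [mon, mon, ← Finset.prod_pow]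
      refine Finset.prod_congr rfl fun l _ => ?_
      rw [Pi.smul_apply, smul_eq_mul, mul_comm, zpow_mul, zpow_natCast]
  exact key Finset.univ

/-- zeros of a polynomial in a grid -/
theorem zeros_grid {m : ℕ} (q : MvPolynomial (Fin m) ℂ) (hq : q ≠ 0) (E : ℕ)
    (hE : q.totalDegree ≤ E) (B : Finset ℂ) (hB : 1 ≤ B.card) (Z : Finset (Fin m → ℂ))
    (hZ : ∀ y ∈ Z, ∀ i, y i ∈ B) (hZ0 : ∀ y ∈ Z, eval y q = 0) :
    Z.card * B.card ≤ E * B.card ^ m := by
  classical
  have h1 := schwartz_zippel_totalDegree hq B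
  have hpos : (0 : ℚ≥0) < (B.card : ℚ≥0) := by exact_mod_cast hB
  rw [div_le_div_iff₀ (pow_pos hpos m) hpos] at h1
  have h2 : Z.card ≤ ((Fintype.piFinset fun _ : Fin m => B).filter
      fun f => eval f q = 0).card := by
    refine Finset.card_le_card fun y hy => ?_
    rw [Finset.mem_filter, Fintype.mem_piFinset]
    exact ⟨hZ y hy, hZ0 y hy⟩
  have h3 : (((Fintype.piFinset fun _ : Fin m => B).filter
      fun f => eval f q = 0).card * B.card : ℕ) ≤ q.totalDegree * B.card ^ m := by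
    exact_mod_cast h1
  exact (Nat.mul_le_mul_right _ h2).trans (h3.trans (Nat.mul_le_mul_right _ hE))

theorem W_nonempty {V : Set (Fin n → ℂ)} (hp : (idealOf V).IsPrime) : V.Nonempty := by
  rw [Set.nonempty_iff_ne_empty]
  rintro rfl
  apply hp.ne_top
  rw [Ideal.eq_top_iff_one, mem_idealOf]
  intro x hx
  exact absurd hx (Set.notMem_empty x)

/-- Relations between bounded monomials on a variety: nontrivial relations between products of
powers of `r` monomials and powers of the coordinates in `J`, if `r + |J| > dim V`. -/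
theorem exists_rel_V (V : Set (Fin n → ℂ)) (hV0 : ∀ y ∈ V, ∀ l, y l ≠ 0)
    (hVp : (idealOf V).IsPrime) (d : ℕ) (hd : dim V ≤ d) :
    ∃ C : ℕ, 1 ≤ C ∧ ∀ (Δ r : ℕ) (v : Fin r → Fin n → ℤ), r ≤ n → (∀ i l, |v i l| ≤ Δ) →
      ∀ J : Finset (Fin n), d + 1 ≤ r + J.card →
        ∃ p : (Fin r → Fin (C * (n * Δ + 1) ^ d + 1)) × (J → Fin (C * (n * Δ + 1) ^ d + 1)) → ℂ,
          (∃ x, p x ≠ 0) ∧ ∀ y ∈ V, ∑ x, p x * (mon y (ex v fun i => (x.1 i : ℕ)) *
            ∏ j : J, y j ^ (x.2 j : ℕ)) = 0 := by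
  classical
  let R := MvPolynomial (Fin n) ℂ ⧸ idealOf V
  have : IsDomain R := Ideal.Quotient.isDomain _
  let Ω := FractionRing R
  let ev : MvPolynomial (Fin n) ℂ →ₐ[ℂ] Ω :=
    (IsScalarTower.toAlgHom ℂ R Ω).comp (Ideal.Quotient.mkₐ ℂ (idealOf V))
  have hev : ∀ f, ev f = 0 ↔ f ∈ idealOf V := by
    intro f
    change algebraMap R Ω (Ideal.Quotient.mk (idealOf V) f) = 0 ↔ _
    rw [← Ideal.Quotient.eq_zero_iff_mem]
    exact map_eq_zero_iff _ (IsFractionRing.injective R Ω)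
  let x : Fin n → Ω := fun j => ev (X j)
  have hx : ∀ j, x j ≠ 0 := by
    intro j h
    have h1 := (hev (X j)).1 h
    rw [mem_idealOf] at h1
    obtain ⟨y, hy⟩ := W_nonempty hVp
    have := h1 y hy
    rw [eval_X] at this
    exact hV0 y hy j this
  have htr : Algebra.trdeg ℂ Ω ≤ d := by
    refine le_trans ?_ hd
    have halg : Algebra.IsAlgebraic (Algebra.adjoin ℂ (Set.range x)) Ω := by
      have hadj : ∀ p : R, algebraMap R Ω p ∈ Algebra.adjoin ℂ (Set.range x) := by
        intro p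
        obtain ⟨f, rfl⟩ := Ideal.Quotient.mk_surjective p
        rw [Algebra.adjoin_range_eq_range_aeval]
        refine ⟨f, ?_⟩
        have h2 : (aeval x : MvPolynomial (Fin n) ℂ →ₐ[ℂ] Ω) = ev := by
          ext i
          rw [aeval_X]
        exact DFunLike.congr_fun h2 f
      refine ⟨fun ω => ?_⟩
      obtain ⟨p, q, hq, rfl⟩ := IsFractionRing.div_surjective (A := R) ω
      rw [div_eq_mul_inv]
      have hp' : IsAlgebraic (Algebra.adjoin ℂ (Set.range x)) (algebraMap R Ω p) :=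
        isAlgebraic_algebraMap (⟨_, hadj p⟩ : Algebra.adjoin ℂ (Set.range x))
      have hq' : IsAlgebraic (Algebra.adjoin ℂ (Set.range x)) (algebraMap R Ω q) :=
        isAlgebraic_algebraMap (⟨_, hadj q⟩ : Algebra.adjoin ℂ (Set.range x))
      exact hp'.mul hq'.inv
    obtain ⟨t, hts, ht⟩ := exists_isTranscendenceBasis_subset (R := ℂ) (Set.range x)
    rw [← ht.cardinalMk_eq_trdeg]
    have hc : ∀ e : t, ∃ j, x j = e := fun e => hts e.2
    choose c hc using hc
    have hinj : Function.Injective (IsScalarTower.toAlgHom ℂ R Ω) := IsFractionRing.injective R Ω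
    have h3 : AlgebraicIndependent ℂ
        (fun e : t => (Ideal.Quotient.mk (idealOf V) (X (c e)) : R)) := by
      rw [← AlgHom.algebraicIndependent_iff _ hinj]
      have h4 : (IsScalarTower.toAlgHom ℂ R Ω) ∘
          (fun e : t => (Ideal.Quotient.mk (idealOf V) (X (c e)) : R)) =
          fun e : t => (e : Ω) := by
        funext e
        exact hc e
      rw [h4]
      exact ht.1
    exact h3.cardinalMk_le_trdeg
  obtain ⟨K, hK1, hK⟩ := growth x hx d htr
  refine ⟨K, hK1, fun Δ r v hr hΔ J hJ => ?_⟩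
  obtain ⟨D, hD⟩ : ∃ D, D = K * (n * Δ + 1) ^ d := ⟨_, rfl⟩
  rw [← hD]
  have hD1 : 1 ≤ D := by rw [hD]; exact Nat.mul_pos hK1 (pow_pos (by omega) _)
  let e : (Fin r → Fin (D + 1)) × (J → Fin (D + 1)) → Fin n → ℤ := fun z =>
    ex v (fun i => (z.1 i : ℕ)) + fun l => if h : l ∈ J then (z.2 ⟨l, h⟩ : ℤ) else 0
  have heL : ∀ a l, |e a l| ≤ (((n * Δ + 1) * D : ℕ) : ℤ) := by
    intro a l
    have h1 := ex_abs hΔ (u := fun i => (a.1 i : ℕ)) (D := D)
      (fun i => Nat.lt_succ_iff.1 (a.1 i).2) l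
    have h2 : |(if h : l ∈ J then (a.2 ⟨l, h⟩ : ℤ) else 0)| ≤ D := by
      split_ifs with h
      · rw [abs_of_nonneg (by positivity)]
        exact_mod_cast Nat.lt_succ_iff.1 (a.2 ⟨l, h⟩).2
      · simp
    have h3 : ((r * (D * Δ) : ℕ) : ℤ) ≤ ((n * (D * Δ) : ℕ) : ℤ) := by
      exact_mod_cast Nat.mul_le_mul_right _ hr
    calc |e a l| ≤ |ex v (fun i => (a.1 i : ℕ)) l| +
          |(if h : l ∈ J then (a.2 ⟨l, h⟩ : ℤ) else 0)| := abs_add_le _ _
      _ ≤ ((n * (D * Δ) : ℕ) : ℤ) + D := add_le_add (h1.trans h3) h2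
      _ = _ := by push_cast; ring
  have hnli : ¬ LinearIndependent ℂ (fun a => ∏ l, x l ^ e a l) := by
    intro hli
    have h1 := hK ((n * Δ + 1) * D) (Nat.mul_pos (by omega) hD1) _ e heL hli
    rw [Fintype.card_prod, Fintype.card_fun, Fintype.card_fun, Fintype.card_fin,
      Fintype.card_fin, Fintype.card_coe, ← pow_add] at h1
    have h2 : (D + 1) ^ (d + 1) ≤ (D + 1) ^ (r + J.card) :=
      Nat.pow_le_pow_right (by omega) hJ
    have h3 : K * ((n * Δ + 1) * D) ^ d = D * D ^ d := by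
      rw [mul_pow, ← mul_assoc, ← hD]
    rw [h3] at h1
    have h4 : D * D ^ d < (D + 1) ^ (d + 1) := by
      rw [← pow_succ']
      exact Nat.pow_lt_pow_left (by omega) (by omega)
    omega
  rw [Fintype.not_linearIndependent_iff] at hnli
  obtain ⟨p, hp, a, ha⟩ := hnli
  refine ⟨p, ⟨a, ha⟩, fun y hy => ?_⟩
  -- clearing denominators
  obtain ⟨m, hm⟩ : ∃ m : ℕ, m = (n * Δ + 1) * D := ⟨_, rfl⟩
  rw [← hm] at heL
  have hnn : ∀ a l, 0 ≤ e a l + m := by
    intro a l
    have := (abs_le.1 (heL a l)).1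
    omega
  let F : MvPolynomial (Fin n) ℂ := ∑ a, C (p a) * ∏ l, X l ^ (e a l + m).toNat
  have hF : F ∈ idealOf V := by
    rw [← hev, map_sum]
    have h1 : ∀ a, ev (C (p a) * ∏ l, X l ^ (e a l + m).toNat) =
        (∏ l, x l ^ m) * (p a • ∏ l, x l ^ e a l) := by
      intro a
      rw [map_mul, map_prod]
      have h2 : ev (C (p a)) = algebraMap ℂ Ω (p a) := by
        rw [← algebraMap_eq]
        exact ev.commutes (p a)
      have h3 : ∀ l, ev (X l ^ (e a l + m).toNat) = x l ^ m * x l ^ e a l := by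
        intro l
        rw [map_pow, ← zpow_natCast, Int.toNat_of_nonneg (hnn a l), add_comm,
          zpow_add₀ (hx l), zpow_natCast]
      rw [h2, Algebra.smul_def, Finset.prod_congr rfl fun l _ => h3 l, Finset.prod_mul_distrib]
      ring
    rw [Finset.sum_congr rfl fun a _ => h1 a, ← Finset.mul_sum, hp, mul_zero]
  have h1 := mem_idealOf.1 hF y hy
  rw [map_sum] at h1
  have hy0 := hV0 y hy
  have h2 : ∀ a, eval y (C (p a) * ∏ l, X l ^ (e a l + m).toNat) =
      (∏ l, y l ^ m) * (p a * (mon y (ex v fun i => (a.1 i : ℕ)) *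
            ∏ j : J, y j ^ (a.2 j : ℕ))) := by
    intro a
    rw [map_mul, eval_C, map_prod]
    have h3 : ∀ l, eval y (X l ^ (e a l + m).toNat) = y l ^ m * y l ^ e a l := by
      intro l
      rw [map_pow, eval_X, ← zpow_natCast, Int.toNat_of_nonneg (hnn a l), add_comm,
        zpow_add₀ (hy0 l), zpow_natCast]
    have h4 : mon y (e a) = mon y (ex v fun i => (a.1 i : ℕ)) * ∏ j : J, y j ^ (a.2 j : ℕ) := by
      rw [mon_add hy0]
      congr 1
      rw [mon, ← Finset.prod_subset (Finset.subset_univ J), ← Finset.prod_coe_sort J]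
      · refine Finset.prod_congr rfl fun j _ => ?_
        rw [dif_pos j.2, zpow_natCast]
      · intro l _ hl
        rw [dif_neg hl, zpow_zero]
    rw [← h4, Finset.prod_congr rfl fun l _ => h3 l, Finset.prod_mul_distrib, mon]
    ring
  rw [Finset.sum_congr rfl fun a _ => h2 a, ← Finset.mul_sum] at h1
  exact (mul_eq_zero.1 h1).resolve_left (Finset.prod_ne_zero_iff.2 fun l _ =>
    pow_ne_zero _ (hy0 l))

end Pool.Agent.R870.RZ
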