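import Pool.Agent.R870.RZ.Trans

/-!
# Almost all translates by the points of a grid have only typical intersections with the cosets of
small complexity
-/

set_option autoImplicit false

namespace Pool.Agent.R870.RZ

open MvPolynomial

variable {n : ℕ}

open Classical in
/-- the bad translations for a coset and a set of coordinates -/
noncomputable def BadT (V : Set (Fin n → ℂ)) (B : Finset ℂ) (T : Set (Fin n → ℂ))
    (J : Finset (Fin n)) : Finset (Fin n → ℂ) :=
  (Fintype.piFinset fun _ => B).filter fun g => ∃ W : Set (Fin n → ℂ), W ⊆ translate g V ∧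
    W ⊆ T ∧ (idealOf W).IsPrime ∧
    AlgebraicIndependent ℂ (fun j : J => Ideal.Quotient.mk (idealOf W) (X (j : Fin n)))

theorem card_BadT (V : Set (Fin n → ℂ)) (hV0 : ∀ y ∈ V, ∀ l, y l ≠ 0)
    (hVp : (idealOf V).IsPrime) (d : ℕ) (hd : dim V ≤ d) :
    ∃ K : ℕ, ∀ (Δ r : ℕ) (v : Fin r → Fin n → ℤ), 1 ≤ Δ → r ≤ n → LinearIndependent ℤ v →
      (∀ i l, |v i l| ≤ Δ) →
      ∀ (η : Fin n → ℂ) (J : Finset (Fin n)), d + 1 ≤ r + J.card → ∀ B : Finset ℂ,
        1 ≤ B.card → 0 ∉ B →
        (BadT V B (coset (Submodule.span ℤ (Set.range v)) η) J).card * B.card ≤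
          K * Δ ^ (d + 1) * B.card ^ n := by
  classical
  obtain ⟨K, hK1, hK⟩ := exists_rel_V V hV0 hVp d hd
  refine ⟨n * (2 * (n * (K * (n + 1) ^ d))), fun Δ r v hΔ1 hr hv hΔ η J hJ B hB1 hB0 => ?_⟩
  have hrel := hK Δ r v hr hΔ J hJ
  obtain ⟨D, hD⟩ : ∃ D, D = K * (n * Δ + 1) ^ d := ⟨_, rfl⟩
  rw [← hD] at hrel
  obtain ⟨p, ⟨⟨u0, w0⟩, hp0⟩, hp⟩ := hrel
  have hDle : D ≤ K * (n + 1) ^ d * Δ ^ d := by
    rw [hD, mul_assoc, ← mul_pow]
    refine Nat.mul_le_mul_left _ (Nat.pow_le_pow_left ?_ _)
    nlinarith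
  -- the bound for the exponents
  obtain ⟨m, hm⟩ : ∃ m : ℕ, m = r * (D * Δ) := ⟨_, rfl⟩
  have hexm : ∀ (u : Fin r → Fin (D + 1)) l, |ex v (fun i => (u i : ℕ)) l| ≤ m := by
    intro u l
    rw [hm]
    exact ex_abs hΔ (fun i => Nat.lt_succ_iff.1 (u i).2) l
  have hnn : ∀ (u : Fin r → Fin (D + 1)) l, 0 ≤ (m : ℤ) - ex v (fun i => (u i : ℕ)) l := by
    intro u l
    have := (abs_le.1 (hexm u l)).2
    omega
  let mo : (Fin r → Fin (D + 1)) → (Fin n →₀ ℕ) := fun u => Finsupp.equivFunOnFinite.symm
    fun l => ((m : ℤ) - ex v (fun i => (u i : ℕ)) l).toNat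
  have hmo : Function.Injective mo := by
    intro u u' h
    have h1 : ex v (fun i => (u i : ℕ)) = ex v (fun i => (u' i : ℕ)) := by
      funext l
      have h2 : ((m : ℤ) - ex v (fun i => (u i : ℕ)) l).toNat =
        ((m : ℤ) - ex v (fun i => (u' i : ℕ)) l).toNat := DFunLike.congr_fun h l
      have h3 := hnn u l
      have h4 := hnn u' l
      omega
    have h5 := ex_inj hv h1
    funext i
    exact Fin.ext (congrFun h5 i)
  let κ : (Fin r → Fin (D + 1)) → ℂ := fun u => ∏ i, (∏ l, η l ^ v i l) ^ (u i : ℕ)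
  by_cases hη : ∀ i, ∏ l, η l ^ v i l ≠ 0
  · -- the polynomial
    let q : MvPolynomial (Fin n) ℂ := ∑ u, monomial (mo u) (p (u, w0) * κ u)
    have hqc : ∀ u, coeff (mo u) q = p (u, w0) * κ u := by
      intro u
      rw [coeff_sum, Finset.sum_eq_single u]
      · rw [coeff_monomial, if_pos rfl]
      · intro u' _ h
        rw [coeff_monomial, if_neg fun h' => h (hmo h')]
      · intro h
        exact absurd (Finset.mem_univ u) h
    have hκ0 : ∀ u, κ u ≠ 0 := fun u => Finset.prod_ne_zero_iff.2 fun i _ => pow_ne_zero _ (hη i)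
    have hq0 : q ≠ 0 := by
      intro h
      have h1 := hqc u0
      rw [h, coeff_zero] at h1
      exact mul_ne_zero hp0 (hκ0 u0) h1.symm
    have hqd : q.totalDegree ≤ n * (2 * m) := by
      refine (totalDegree_finsetSum_le (d := n * (2 * m)) fun u _ => ?_)
      refine (totalDegree_monomial_le _ _).trans ?_
      rw [Finsupp.sum_fintype _ _ fun _ => rfl]
      calc ∑ i, (mo u) i ≤ ∑ _i : Fin n, 2 * m := by
            refine Finset.sum_le_sum fun l _ => ?_
            change ((m : ℤ) - ex v (fun i => (u i : ℕ)) l).toNat ≤ 2 * m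
            have := (abs_le.1 (hexm u l)).1
            omega
        _ = n * (2 * m) := by simp
    have hbound : (BadT V B (coset (Submodule.span ℤ (Set.range v)) η) J).card * B.card ≤
        n * (2 * m) * B.card ^ n := by
      refine zeros_grid q hq0 _ hqd B hB1 _ ?_ ?_
      · intro g hg
        exact Fintype.mem_piFinset.1 (Finset.mem_filter.1 hg).1
      · intro g hg
        obtain ⟨hg1, W, hWV, hWT, hWp, hWJ⟩ := Finset.mem_filter.1 hg
        have hgB := Fintype.mem_piFinset.1 hg1
        have hg0 : ∀ l, g l ≠ 0 := fun l h => hB0 (h ▸ hgB l)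
        -- the coefficient
        obtain ⟨cf, hcf⟩ : ∃ cf : (J → Fin (D + 1)) → ℂ, cf = fun w =>
          ∑ u, p (u, w) * (κ u * (mon g (ex v fun i => (u i : ℕ)))⁻¹) := ⟨_, rfl⟩
        have hvan : ∀ y ∈ W, ∑ w, cf w * ∏ j : J, (y j / g j) ^ (w j : ℕ) = 0 := by
          intro y hy
          obtain ⟨x, hx, hyx⟩ := hWV hy
          have hx0 := hV0 x hx
          have hy0 := (hWT hy).1
          have h1 := hp x hx
          rw [Fintype.sum_prod_type_right] at h1
          rw [← h1, hcf]
          refine Finset.sum_congr rfl fun w _ => ?_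
          rw [Finset.sum_mul]
          refine Finset.sum_congr rfl fun u _ => ?_
          have h2 : ∀ j, y j / g j = x j := by
            intro j
            rw [hyx j, mul_div_cancel_left₀ _ (hg0 j)]
          have h3 : mon x (ex v fun i => (u i : ℕ)) =
              κ u * (mon g (ex v fun i => (u i : ℕ)))⁻¹ := by
            have h4 : mon y (ex v fun i => (u i : ℕ)) = mon g (ex v fun i => (u i : ℕ)) *
                mon x (ex v fun i => (u i : ℕ)) := by
              rw [mon, mon, mon, ← Finset.prod_mul_distrib]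
              refine Finset.prod_congr rfl fun l _ => ?_
              rw [hyx l, mul_zpow]
            have h5 : mon y (ex v fun i => (u i : ℕ)) = κ u := by
              rw [mon_ex hy0]
              refine Finset.prod_congr rfl fun i _ => ?_
              congr 1
              exact (hWT hy).2 _ (Submodule.subset_span ⟨i, rfl⟩)
            rw [← h5, h4]
            have h6 := mon_ne hg0 (ex v fun i => (u i : ℕ))
            field_simp
          simp only [h2]
          rw [h3]
          ring
        -- the polynomial in the independent coordinates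
        let mj : (J → Fin (D + 1)) → (J →₀ ℕ) := fun w => Finsupp.equivFunOnFinite.symm
          fun j => (w j : ℕ)
        have hmj : Function.Injective mj := by
          intro w w' h
          funext i
          have := DFunLike.congr_fun h i
          exact Fin.ext this
        let R : MvPolynomial J ℂ := ∑ w, monomial (mj w) (cf w * ∏ j : J, (g j)⁻¹ ^ (w j : ℕ))
        have hR : R = 0 := by
          have h1 := algebraicIndependent_iff.1 hWJ R
          apply h1
          have h2 : aeval (fun j : J => Ideal.Quotient.mk (idealOf W) (X (j : Fin n))) R =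
              Ideal.Quotient.mk (idealOf W) (rename (fun j : J => (j : Fin n)) R) := by
            have h3 : (aeval (fun j : J => Ideal.Quotient.mk (idealOf W) (X (j : Fin n))) :
                MvPolynomial J ℂ →ₐ[ℂ] _) = (Ideal.Quotient.mkₐ ℂ (idealOf W)).comp
                  (rename (fun j : J => (j : Fin n))) := by
              ext j
              simp
            exact DFunLike.congr_fun h3 R
          rw [h2, Ideal.Quotient.eq_zero_iff_mem, mem_idealOf]
          intro y hy
          rw [eval_rename, map_sum, ← hvan y hy]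
          refine Finset.sum_congr rfl fun w _ => ?_
          rw [eval_monomial, Finsupp.prod_fintype _ _ fun _ => pow_zero _, mul_assoc,
            ← Finset.prod_mul_distrib]
          congr 1
          refine Finset.prod_congr rfl fun j _ => ?_
          rw [div_eq_inv_mul, mul_pow]
          rfl
        have h5 : coeff (mj w0) R = cf w0 * ∏ j : J, (g j)⁻¹ ^ (w0 j : ℕ) := by
          rw [coeff_sum, Finset.sum_eq_single w0]
          · rw [coeff_monomial, if_pos rfl]
          · intro w' _ h
            rw [coeff_monomial, if_neg fun h' => h (hmj h')]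
          · intro h
            exact absurd (Finset.mem_univ w0) h
        rw [hR, coeff_zero] at h5
        have h6 : cf w0 = 0 := (mul_eq_zero.1 h5.symm).resolve_right
          (Finset.prod_ne_zero_iff.2 fun j _ => pow_ne_zero _ (inv_ne_zero (hg0 j)))
        have h7 : eval g q = (∏ l, g l ^ m) * cf w0 := by
          rw [hcf, map_sum, Finset.mul_sum]
          refine Finset.sum_congr rfl fun u _ => ?_
          rw [eval_monomial, Finsupp.prod_fintype _ _ fun _ => pow_zero _]
          have h8 : ∏ l, g l ^ (mo u) l = (∏ l, g l ^ m) *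
              (mon g (ex v fun i => (u i : ℕ)))⁻¹ := by
            rw [mon, ← Finset.prod_inv_distrib, ← Finset.prod_mul_distrib]
            refine Finset.prod_congr rfl fun l _ => ?_
            change g l ^ ((m : ℤ) - ex v (fun i => (u i : ℕ)) l).toNat = _
            rw [← zpow_natCast, Int.toNat_of_nonneg (hnn u l), zpow_sub₀ (hg0 l), zpow_natCast,
              div_eq_mul_inv]
          rw [h8]
          ring
        rw [h7, h6, mul_zero]
    refine hbound.trans (Nat.mul_le_mul_right _ ?_)
    have h1 : m ≤ n * (K * (n + 1) ^ d) * Δ ^ (d + 1) := by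
      rw [hm]
      calc r * (D * Δ) ≤ n * ((K * (n + 1) ^ d * Δ ^ d) * Δ) :=
            Nat.mul_le_mul hr (Nat.mul_le_mul_right _ hDle)
        _ = _ := by ring
    calc n * (2 * m) ≤ n * (2 * (n * (K * (n + 1) ^ d) * Δ ^ (d + 1))) :=
          Nat.mul_le_mul_left _ (Nat.mul_le_mul_left _ h1)
      _ = _ := by ring
  · -- the coset is empty
    push Not at hη
    obtain ⟨i, hi⟩ := hη
    have h1 : BadT V B (coset (Submodule.span ℤ (Set.range v)) η) J = ∅ := by
      rw [Finset.eq_empty_iff_forall_notMem]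
      intro g hg
      obtain ⟨_, W, _, hWT, hWp, _⟩ := Finset.mem_filter.1 hg
      obtain ⟨y, hy⟩ := W_nonempty hWp
      have h2 := (hWT hy).2 _ (Submodule.subset_span ⟨i, rfl⟩)
      rw [hi] at h2
      exact Finset.prod_ne_zero_iff.2 (fun l _ => zpow_ne_zero _ ((hWT hy).1 l)) h2
    rw [h1, Finset.card_empty, zero_mul]
    exact Nat.zero_le _

theorem mainT (V : Set (Fin n → ℂ)) (hV0 : ∀ y ∈ V, ∀ l, y l ≠ 0)
    (hVp : (idealOf V).IsPrime) (d : ℕ) (hd : dim V ≤ d) :
    ∃ C : ℕ, ∀ Δ : ℕ, 1 ≤ Δ → ∀ B : Finset ℂ, 1 ≤ B.card → 0 ∉ B → ∀ G : Finset (Fin n → ℂ),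
      ∃ E : Finset (Fin n → ℂ),
        E.card * B.card ≤ C * G.card * Δ ^ (n ^ 2 + d + 1) * B.card ^ n ∧
        ∀ g : Fin n → ℂ, (∀ l, g l ∈ B) → g ∉ E →
          ∀ M : Submodule ℤ (Fin n → ℤ), Complexity Δ M → ∀ η ∈ G, ∀ W : Set (Fin n → ℂ),
            W ⊆ translate g V → W ⊆ coset M η → (idealOf W).IsPrime →
              dim W + (Module.finrank ℤ M : Cardinal) ≤ (d : Cardinal) := by
  classical
  obtain ⟨K, hK⟩ := card_BadT V hV0 hVp d hd
  refine ⟨(n + 1) * 3 ^ (n * n) * 2 ^ n * K, fun Δ hΔ B hB1 hB0 G => ?_⟩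
  let bx' : Finset (Fin n → ℤ) := Fintype.piFinset fun _ => Finset.Icc (-(Δ : ℤ)) Δ
  have hbx : bx'.card = (2 * Δ + 1) ^ n := by
    rw [Fintype.card_piFinset, Finset.prod_const, Finset.card_univ, Fintype.card_fin,
      Int.card_Icc]
    congr 1
    omega
  let vs : (r : ℕ) → Finset (Fin r → Fin n → ℤ) := fun r =>
    (Fintype.piFinset fun _ : Fin r => bx').filter fun v => LinearIndependent ℤ v
  have hvs : ∀ r, (vs r).card ≤ (2 * Δ + 1) ^ (n * r) := by
    intro r
    refine (Finset.card_filter_le _ _).trans ?_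
    rw [Fintype.card_piFinset, Finset.prod_const, Finset.card_univ, Fintype.card_fin, hbx,
      ← pow_mul]
  let Js : (r : ℕ) → Finset (Finset (Fin n)) := fun r =>
    Finset.univ.filter fun J => d + 1 ≤ r + J.card
  have hJs : ∀ r, (Js r).card ≤ 2 ^ n := by
    intro r
    refine (Finset.card_filter_le _ _).trans ?_
    simp
  let E : Finset (Fin n → ℂ) := (Finset.range (n + 1)).biUnion fun r =>
    (vs r).biUnion fun v => G.biUnion fun η => (Js r).biUnion fun J =>
      BadT V B (coset (Submodule.span ℤ (Set.range v)) η) J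
  refine ⟨E, ?_, ?_⟩
  · have hbad : ∀ r ∈ Finset.range (n + 1), ∀ v ∈ vs r, ∀ η ∈ G, ∀ J ∈ Js r,
        (BadT V B (coset (Submodule.span ℤ (Set.range v)) η) J).card * B.card ≤
          K * Δ ^ (d + 1) * B.card ^ n := by
      intro r hr v hv η _ J hJ
      obtain ⟨hv1, hv2⟩ := Finset.mem_filter.1 hv
      refine hK Δ r v hΔ (Nat.lt_succ_iff.1 (Finset.mem_range.1 hr)) hv2 ?_ η J
        (Finset.mem_filter.1 hJ).2 B hB1 hB0
      intro i l
      have h1 := Fintype.mem_piFinset.1 (Fintype.mem_piFinset.1 hv1 i) l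
      rw [Finset.mem_Icc] at h1
      exact abs_le.2 h1
    obtain ⟨Q, hQ⟩ : ∃ Q, Q = K * Δ ^ (d + 1) * B.card ^ n := ⟨_, rfl⟩
    have hEcard : E.card * B.card ≤ (n + 1) * ((2 * Δ + 1) ^ (n * n) * (G.card *
        (2 ^ n * Q))) := by
      have h1 : E.card ≤ ∑ r ∈ Finset.range (n + 1), ∑ v ∈ vs r, ∑ η ∈ G, ∑ J ∈ Js r,
          (BadT V B (coset (Submodule.span ℤ (Set.range v)) η) J).card :=
        Finset.card_biUnion_le.trans (Finset.sum_le_sum fun r _ =>
          Finset.card_biUnion_le.trans (Finset.sum_le_sum fun v _ =>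
            Finset.card_biUnion_le.trans (Finset.sum_le_sum fun η _ =>
              Finset.card_biUnion_le)))
      calc E.card * B.card
          ≤ (∑ r ∈ Finset.range (n + 1), ∑ v ∈ vs r, ∑ η ∈ G, ∑ J ∈ Js r,
            (BadT V B (coset (Submodule.span ℤ (Set.range v)) η) J).card) * B.card :=
            Nat.mul_le_mul_right _ h1
        _ = ∑ r ∈ Finset.range (n + 1), ∑ v ∈ vs r, ∑ η ∈ G, ∑ J ∈ Js r,
            (BadT V B (coset (Submodule.span ℤ (Set.range v)) η) J).card * B.card := by
            simp only [Finset.sum_mul]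
        _ ≤ ∑ r ∈ Finset.range (n + 1), ∑ v ∈ vs r, ∑ η ∈ G, ∑ J ∈ Js r, Q :=
            Finset.sum_le_sum fun r hr => Finset.sum_le_sum fun v hv =>
              Finset.sum_le_sum fun η hη => Finset.sum_le_sum fun J hJ => by
                rw [hQ]
                exact hbad r hr v hv η hη J hJ
        _ = ∑ r ∈ Finset.range (n + 1), (vs r).card * (G.card * ((Js r).card * Q)) := by
            simp only [Finset.sum_const, smul_eq_mul]
        _ ≤ ∑ _r ∈ Finset.range (n + 1), (2 * Δ + 1) ^ (n * n) * (G.card * (2 ^ n * Q)) := by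
            refine Finset.sum_le_sum fun r hr => ?_
            have hr' : r ≤ n := Nat.lt_succ_iff.1 (Finset.mem_range.1 hr)
            refine Nat.mul_le_mul ((hvs r).trans ?_) (Nat.mul_le_mul_left _
              (Nat.mul_le_mul_right _ (hJs r)))
            exact Nat.pow_le_pow_right (by omega) (Nat.mul_le_mul_left _ hr')
        _ = _ := by rw [Finset.sum_const, Finset.card_range, smul_eq_mul]
    refine hEcard.trans ?_
    have h2 : (2 * Δ + 1) ^ (n * n) ≤ 3 ^ (n * n) * Δ ^ (n * n) := by
      rw [← mul_pow]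
      exact Nat.pow_le_pow_left (by omega) _
    rw [hQ]
    calc (n + 1) * ((2 * Δ + 1) ^ (n * n) * (G.card * (2 ^ n * (K * Δ ^ (d + 1) *
          B.card ^ n))))
        ≤ (n + 1) * ((3 ^ (n * n) * Δ ^ (n * n)) * (G.card * (2 ^ n * (K * Δ ^ (d + 1) *
          B.card ^ n)))) := Nat.mul_le_mul_left _ (Nat.mul_le_mul_right _ h2)
      _ = _ := by
          rw [show n ^ 2 + d + 1 = n * n + (d + 1) by ring, pow_add]
          ring
  · intro g hg hgE M hM η hη W hWV hWT hWp
    obtain ⟨v, hv, hvM, hvΔ⟩ := hM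
    obtain ⟨J, hJ, hJd⟩ := exists_J W hWp
    rw [← hJd]
    by_contra hcon
    have hcon' : ¬ (J.card + Module.finrank ℤ M ≤ d) := by
      intro h
      apply hcon
      exact_mod_cast h
    have hr : Module.finrank ℤ M ≤ n := by
      have := Submodule.finrank_le M
      rwa [Module.finrank_fin_fun] at this
    apply hgE
    rw [Finset.mem_biUnion]
    refine ⟨Module.finrank ℤ M, Finset.mem_range.2 (Nat.lt_succ_of_le hr), ?_⟩
    rw [Finset.mem_biUnion]
    refine ⟨v, ?_, ?_⟩
    · rw [Finset.mem_filter, Fintype.mem_piFinset]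
      refine ⟨fun i => ?_, hv⟩
      rw [Fintype.mem_piFinset]
      intro l
      rw [Finset.mem_Icc]
      exact abs_le.1 (hvΔ i l)
    · rw [Finset.mem_biUnion]
      refine ⟨η, hη, ?_⟩
      rw [Finset.mem_biUnion]
      refine ⟨J, ?_, ?_⟩
      · rw [Finset.mem_filter]
        refine ⟨Finset.mem_univ _, by omega⟩
      · rw [BadT, Finset.mem_filter]
        refine ⟨Fintype.mem_piFinset.2 hg, W, hWV, ?_, hWp, hJ⟩
        refine hWT.trans (coset_mono ?_ η)
        rw [Submodule.span_le]
        rintro x ⟨i, rfl⟩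
        exact hvM i

end Pool.Agent.R870.RZ
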